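import Pool.Agent.NH14.CN.Stm

/-!
# Project CN, part CNT: counting the discriminants (helper79)
-/

set_option autoImplicit false

namespace Pool.Agent.NH14.CN

open Filter Real

theorem cnt_key (β : ℝ) (hβ : β < 1) (ε : ℝ) (hε : 0 < ε) :
    ∀ᶠ x : ℝ in atTop, x ^ β * (Real.log x) ^ 2 ≤ ε * x := by
  have hr : 0 < (1 - β) / 2 := by linarith
  have h := (isLittleO_log_rpow_atTop hr).def (Real.sqrt_pos.2 hε)
  filter_upwards [h, eventually_ge_atTop (1 : ℝ)] with x hx hx1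
  have hx0 : 0 < x := by linarith
  have h1 : 0 ≤ Real.log x := Real.log_nonneg hx1
  have h2 : 0 < x ^ ((1 - β) / 2) := Real.rpow_pos_of_pos hx0 _
  rw [Real.norm_of_nonneg h1, Real.norm_of_nonneg h2.le] at hx
  have h3 : (Real.log x) ^ 2 ≤ (√ε * x ^ ((1 - β) / 2)) ^ 2 := pow_le_pow_left₀ h1 hx 2
  have h4 : (√ε * x ^ ((1 - β) / 2)) ^ 2 = ε * x ^ (1 - β) := by
    rw [mul_pow, Real.sq_sqrt hε.le, ← Real.rpow_natCast, ← Real.rpow_mul hx0.le]
    congr 2
    push_cast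
    ring
  rw [h4] at h3
  calc x ^ β * (Real.log x) ^ 2 ≤ x ^ β * (ε * x ^ (1 - β)) :=
        mul_le_mul_of_nonneg_left h3 (Real.rpow_pos_of_pos hx0 _).le
    _ = ε * (x ^ β * x ^ (1 - β)) := by ring
    _ = ε * x := by
        rw [← Real.rpow_add hx0]
        norm_num

/-- the inequality for the main variable `x = (X / C) ^ (1 / A)` -/
theorem cnt_main (β : ℝ) (hβ0 : 0 ≤ β) (hβ : β < 1) (K1 K2 N : ℝ) (h1 : 0 ≤ K1) (h2 : 0 ≤ K2)
    (hN : 0 ≤ N) : ∀ᶠ x : ℝ in atTop,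
      x ^ β * (K1 + K2 * Real.log x) + N ≤
        ((x - 1) * Real.log 2 - Real.log (x + 2)) / Real.log x := by
  have hl2 : 0 < Real.log 2 := Real.log_pos (by norm_num)
  have hl2' : Real.log 2 ≤ 1 := by
    have := Real.log_two_lt_d9
    linarith
  filter_upwards [cnt_key β hβ (Real.log 2 / (K1 + K2 + N + 3)) (by positivity),
    eventually_ge_atTop (Real.exp 1)] with x hx hxe
  have he : (2 : ℝ) ≤ Real.exp 1 := by
    have := Real.add_one_le_exp (1 : ℝ)
    linarith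
  have hx2 : 2 ≤ x := he.trans hxe
  have hx0 : 0 < x := by linarith
  have hL : 1 ≤ Real.log x := by
    rw [Real.le_log_iff_exp_le hx0]
    exact hxe
  have hL0 : 0 < Real.log x := by linarith
  have hb : 1 ≤ x ^ β := Real.one_le_rpow (by linarith) hβ0
  obtain ⟨L, hLe⟩ : ∃ L : ℝ, L = Real.log x := ⟨_, rfl⟩
  obtain ⟨b, hbe⟩ : ∃ b : ℝ, b = x ^ β := ⟨_, rfl⟩
  have hlog : Real.log (x + 2) ≤ 2 * L := by
    have h : Real.log (x + 2) ≤ Real.log (x ^ 2) :=
      Real.log_le_log (by linarith) (by nlinarith)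
    rw [Real.log_pow] at h
    rw [hLe]
    exact_mod_cast h
  rw [le_div_iff₀ hL0]
  rw [← hLe, ← hbe] at hx
  rw [← hLe] at hL hL0
  rw [← hbe] at hb
  rw [← hLe, ← hbe]
  have h3 : b * L ^ 2 * (K1 + K2 + N + 3) ≤ Real.log 2 * x := by
    have h4 := mul_le_mul_of_nonneg_right hx (show 0 ≤ K1 + K2 + N + 3 by positivity)
    refine h4.trans (le_of_eq ?_)
    field_simp
  have hL2 : L ≤ L ^ 2 := by nlinarith
  have hL3 : L ^ 2 ≤ b * L ^ 2 := by nlinarith [sq_nonneg L]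
  have e1 : K1 * (b * L) ≤ K1 * (b * L ^ 2) :=
    mul_le_mul_of_nonneg_left (mul_le_mul_of_nonneg_left hL2 (by linarith)) h1
  have e2 : N * L ≤ N * (b * L ^ 2) := mul_le_mul_of_nonneg_left (hL2.trans hL3) hN
  have e3 : (b * (K1 + K2 * L) + N) * L = K1 * (b * L) + K2 * (b * L ^ 2) + N * L := by ring
  rw [e3]
  nlinarith

theorem cnt_fibre (P : Finset ℕ) (hP : ∀ q ∈ P, q.Prime) (d : ℤ) (hd : d ≠ 0)
    (h : ∀ q ∈ P, (q : ℤ) ∣ d) : (2 : ℝ) ^ P.card ≤ ((|d| : ℤ) : ℝ) := by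
  have h1 : ∏ q ∈ P, q ∣ d.natAbs := by
    refine Finset.prod_primes_dvd _ (fun q hq => (hP q hq).prime) fun q hq => ?_
    exact Int.natCast_dvd.1 (h q hq)
  have h2 : ∏ q ∈ P, q ≤ d.natAbs := Nat.le_of_dvd (Int.natAbs_pos.2 hd) h1
  have h3 : 2 ^ P.card ≤ ∏ q ∈ P, q := by
    rw [← Finset.prod_const]
    exact Finset.prod_le_prod' fun q hq => (hP q hq).two_le
  have h4 : ((2 ^ P.card : ℕ) : ℤ) ≤ |d| := by
    rw [Int.abs_eq_natAbs]
    exact_mod_cast h3.trans h2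
  have h5 : (((2 ^ P.card : ℕ) : ℤ) : ℝ) ≤ ((|d| : ℤ) : ℝ) := by exact_mod_cast h4
  push_cast at h5 ⊢
  exact h5

theorem t_CNT : S_CNT := by
  intro S A C N hA H δ hδ
  classical
  choose! f hfS hf0 hfq hfC using H
  -- `C` is positive
  have hC : 1 ≤ C := by
    obtain ⟨q, hq1, hq2⟩ := Nat.exists_infinite_primes (N + 1)
    have h1 := hfC q hq2 (by omega)
    have h2 := hf0 q hq2 (by omega)
    rcases Nat.eq_zero_or_pos C with h | h
    · rw [h] at h1
      simp only [Nat.cast_zero, zero_mul] at h1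
      exact absurd (abs_nonpos_iff.1 h1) h2
    · exact h
  have hCr : (1 : ℝ) ≤ C := by exact_mod_cast hC
  have hC0 : (0 : ℝ) < C := by linarith
  have hA0 : (0 : ℝ) < A := by exact_mod_cast hA
  obtain ⟨δ', hδ'⟩ : ∃ δ' : ℝ, δ' = max δ 0 := ⟨_, rfl⟩
  have hd0 : 0 ≤ δ' := hδ' ▸ le_max_right _ _
  have hdd : δ ≤ δ' := hδ' ▸ le_max_left _ _
  have hd1 : (A : ℝ) * δ' < 1 := by
    have h : δ' < 1 / (A : ℝ) := by
      rw [hδ']
      exact max_lt hδ (by positivity)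
    rw [lt_div_iff₀ hA0] at h
    linarith
  have hlogC : 0 ≤ Real.log C := Real.log_nonneg hCr
  have hmain := cnt_main (A * δ') (by positivity) hd1 ((C : ℝ) ^ δ' * (2 * Real.log C))
    ((C : ℝ) ^ δ' * (2 * A)) N (by positivity) (by positivity) (by positivity)
  have htend : Tendsto (fun X : ℝ => (X / C) ^ (1 / (A : ℝ))) atTop atTop :=
    (tendsto_rpow_atTop (by positivity)).comp (tendsto_id.atTop_div_const hC0)
  have hev := (htend.eventually (hmain.and (eventually_gt_atTop 1))).and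
    (eventually_gt_atTop (1 : ℝ))
  obtain ⟨X₀, hX₀⟩ := eventually_atTop.1 hev
  refine ⟨X₀, fun X hX => ?_⟩
  obtain ⟨⟨hx, hx1⟩, hX1⟩ := hX₀ X hX
  obtain ⟨x, hxe⟩ : ∃ x : ℝ, x = (X / C) ^ (1 / (A : ℝ)) := ⟨_, rfl⟩
  rw [← hxe] at hx hx1
  have hX0 : 0 < X := by linarith
  have hx0 : 0 < x := by linarith
  have hxA : x ^ A = X / C := by
    rw [hxe, ← Real.rpow_natCast, ← Real.rpow_mul (by positivity), one_div,
      inv_mul_cancel₀ hA0.ne', Real.rpow_one]
  have hXx : X = C * x ^ A := by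
    rw [hxA]
    field_simp
  have hlX : Real.log X = Real.log C + A * Real.log x := by
    rw [hXx, Real.log_mul hC0.ne' (by positivity), Real.log_pow]
  have hlX0 : 0 < Real.log X := Real.log_pos hX1
  have hXd : X ^ δ' = (C : ℝ) ^ δ' * x ^ (A * δ') := by
    conv_lhs => rw [hXx]
    rw [Real.mul_rpow hC0.le (by positivity), ← Real.rpow_natCast, ← Real.rpow_mul hx0.le]
  have hpi := (hx.trans (Chebyshev.pi_ge' hx1))
  have hpi2 : X ^ δ' * (2 * Real.log X) + N ≤ (Nat.primeCounting ⌊x⌋₊ : ℝ) := by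
    refine le_trans (le_of_eq ?_) hpi
    rw [hXd, hlX]
    ring
  -- the sets
  obtain ⟨P, hP⟩ : ∃ P : Finset ℕ, P = (Finset.range (⌊x⌋₊ + 1)).filter
    (fun q => q.Prime ∧ N < q) := ⟨_, rfl⟩
  have hPm : ∀ q ∈ P, q.Prime ∧ N < q ∧ (q : ℝ) ≤ x := by
    intro q hq
    rw [hP, Finset.mem_filter, Finset.mem_range] at hq
    refine ⟨hq.2.1, hq.2.2, ?_⟩
    exact (Nat.le_floor_iff hx0.le).1 (by omega)
  have hPc : Nat.primeCounting ⌊x⌋₊ ≤ P.card + N := by
    have h1 : Nat.primeCounting ⌊x⌋₊ = ((Finset.range (⌊x⌋₊ + 1)).filter Nat.Prime).card := by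
      rw [Nat.primeCounting, Nat.primeCounting', Nat.count_eq_card_filter_range]
    rw [h1]
    have h2 : (Finset.range (⌊x⌋₊ + 1)).filter Nat.Prime ⊆ P ∪ Finset.Icc 1 N := by
      intro q hq
      rw [Finset.mem_filter] at hq
      rw [Finset.mem_union, hP, Finset.mem_filter, Finset.mem_Icc]
      by_cases hqN : N < q
      · exact Or.inl ⟨hq.1, hq.2, hqN⟩
      · exact Or.inr ⟨hq.2.one_lt.le, by omega⟩
    refine (Finset.card_le_card h2).trans ((Finset.card_union_le _ _).trans ?_)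
    simp
  have hfin : {d : ℤ | d ∈ S ∧ ((|d| : ℤ) : ℝ) ≤ X}.Finite := by
    refine (Set.finite_Icc (-⌊X⌋) ⌊X⌋).subset ?_
    rintro d ⟨-, hd⟩
    have h : |d| ≤ ⌊X⌋ := Int.le_floor.2 hd
    rw [Set.mem_Icc]
    exact abs_le.1 h
  have hmaps : ∀ q ∈ P, f q ∈ hfin.toFinset := by
    intro q hq
    obtain ⟨h1, h2, h3⟩ := hPm q hq
    rw [Set.Finite.mem_toFinset]
    refine ⟨hfS q h1 h2, ?_⟩
    have h4 : ((|f q| : ℤ) : ℝ) ≤ (C : ℝ) * (q : ℝ) ^ A := by exact_mod_cast hfC q h1 h2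
    refine h4.trans ?_
    rw [hXx]
    exact mul_le_mul_of_nonneg_left (pow_le_pow_left₀ (by positivity) h3 A) hC0.le
  have hl2 : 0 < Real.log 2 := Real.log_pos (by norm_num)
  have hl2' : 1 / 2 < Real.log 2 := by
    have := Real.log_two_gt_d9
    linarith
  have hfib : ∀ d ∈ hfin.toFinset, (P.filter (fun q => f q = d)).card ≤ ⌊2 * Real.log X⌋₊ := by
    intro d hd
    rw [Set.Finite.mem_toFinset] at hd
    by_cases h0 : d = 0
    · have : P.filter (fun q => f q = d) = ∅ := by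
        rw [Finset.filter_eq_empty_iff]
        intro q hq h
        obtain ⟨h1, h2, -⟩ := hPm q hq
        exact hf0 q h1 h2 (h.trans h0)
      rw [this]
      simp
    · have h1 := cnt_fibre (P.filter (fun q => f q = d))
        (fun q hq => (hPm q (Finset.mem_filter.1 hq).1).1) d h0 (by
          intro q hq
          obtain ⟨ha, hb⟩ := Finset.mem_filter.1 hq
          obtain ⟨h1, h2, -⟩ := hPm q ha
          rw [← hb]
          exact hfq q h1 h2)
      have h2 := h1.trans hd.2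
      have h3 := Real.log_le_log (by positivity) h2
      rw [Real.log_pow] at h3
      refine Nat.le_floor ?_
      have h4 : (0 : ℝ) ≤ ((P.filter (fun q => f q = d)).card : ℝ) := Nat.cast_nonneg _
      nlinarith
  have hcard := Finset.card_le_mul_card_image_of_maps_to hmaps _ hfib
  have hnc : {d : ℤ | d ∈ S ∧ ((|d| : ℤ) : ℝ) ≤ X}.ncard = hfin.toFinset.card :=
    Set.ncard_eq_toFinset_card _ hfin
  rw [hnc]
  have h5 : (P.card : ℝ) ≤ 2 * Real.log X * (hfin.toFinset.card : ℝ) := by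
    have h6 : (P.card : ℝ) ≤ (⌊2 * Real.log X⌋₊ : ℝ) * (hfin.toFinset.card : ℝ) := by
      exact_mod_cast hcard
    exact h6.trans (mul_le_mul_of_nonneg_right (Nat.floor_le (by positivity)) (Nat.cast_nonneg _))
  have h7 : (Nat.primeCounting ⌊x⌋₊ : ℝ) ≤ P.card + N := by exact_mod_cast hPc
  have h8 : X ^ δ' * (2 * Real.log X) ≤ (hfin.toFinset.card : ℝ) * (2 * Real.log X) := by
    linarith
  have h9 : X ^ δ' ≤ (hfin.toFinset.card : ℝ) := le_of_mul_le_mul_right h8 (by positivity)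
  exact (Real.rpow_le_rpow_of_exponent_le hX1.le hdd).trans h9

end Pool.Agent.NH14.CN
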