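import Pool.Agent.NH14.CN.Stm2
import Pool.Agent.NH14.CN.Cnt

/-!
# Project CN, part CNT2: counting the discriminants divisible by two primes (helper41)
-/

set_option autoImplicit false

namespace Pool.Agent.NH14.CN

open Filter Real

theorem cnt2_pow (β γ : ℝ) (h : β < γ) (K : ℝ) (hK : 0 ≤ K) :
    ∀ᶠ x : ℝ in atTop, K * (x ^ β * (Real.log x) ^ 2) ≤ x ^ γ := by
  have h1 := cnt_key (β - (γ - 1)) (by linarith) (1 / (K + 1)) (by positivity)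
  filter_upwards [h1, eventually_gt_atTop (0 : ℝ)] with x hx hx0
  have h2 : x ^ β = x ^ (β - (γ - 1)) * x ^ (γ - 1) := by
    rw [← Real.rpow_add hx0]
    congr 1
    ring
  have h3 : x ^ γ = x ^ (1 : ℝ) * x ^ (γ - 1) := by
    rw [← Real.rpow_add hx0]
    congr 1
    ring
  rw [Real.rpow_one] at h3
  have h4 : 0 < x ^ (γ - 1) := Real.rpow_pos_of_pos hx0 _
  calc K * (x ^ β * (Real.log x) ^ 2)
      = (x ^ (β - (γ - 1)) * (Real.log x) ^ 2) * (K * x ^ (γ - 1)) := by rw [h2]; ring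
    _ ≤ (1 / (K + 1) * x) * (K * x ^ (γ - 1)) :=
        mul_le_mul_of_nonneg_right hx (by positivity)
    _ = (K / (K + 1)) * x ^ γ := by rw [h3]; ring
    _ ≤ 1 * x ^ γ := by
        refine mul_le_mul_of_nonneg_right ?_ (Real.rpow_pos_of_pos hx0 _).le
        rw [div_le_one (by linarith)]
        linarith
    _ = x ^ γ := one_mul _

theorem cnt2_floor (ε : ℝ) (hε : 0 < ε) (hε1 : ε ≤ 1) (y : ℝ) (hy : 2 ≤ y) :
    y ^ (1 - ε) / 2 ≤ ((⌊y⌋₊ : ℕ) : ℝ) ^ (1 - ε) := by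
  have h1 : y / 2 ≤ ((⌊y⌋₊ : ℕ) : ℝ) := by
    have := Nat.lt_floor_add_one y
    linarith
  have h2 : (y / 2) ^ (1 - ε) ≤ ((⌊y⌋₊ : ℕ) : ℝ) ^ (1 - ε) :=
    Real.rpow_le_rpow (by positivity) h1 (by linarith)
  refine le_trans ?_ h2
  rw [Real.div_rpow (by linarith) (by norm_num)]
  refine div_le_div_of_nonneg_left (by positivity) (by positivity) ?_
  calc (2 : ℝ) ^ (1 - ε) ≤ 2 ^ (1 : ℝ) :=
        Real.rpow_le_rpow_of_exponent_le (by norm_num) (by linarith)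
    _ = 2 := Real.rpow_one 2

theorem cnt2_main (ε : ℝ) (hε : 0 < ε) (hε4 : 4 * ε ≤ 1) (N Y₁ Y₂ : ℕ) (g h : ℕ → ℝ)
    (hg : ∀ Y : ℕ, Y₁ ≤ Y → (Y : ℝ) ^ (1 - ε) ≤ g Y)
    (hh : ∀ Y : ℕ, Y₂ ≤ Y → (Y : ℝ) ^ (1 - ε) ≤ h Y) :
    ∀ᶠ x : ℝ in atTop, x ^ (2 - 6 * ε) ≤
      (g ⌊x⌋₊ - N * (⌊x ^ (1 - 2 * ε)⌋₊ : ℕ)) * (h ⌊x ^ (1 - 2 * ε)⌋₊ - N) ∧
      0 ≤ h ⌊x ^ (1 - 2 * ε)⌋₊ - N := by
  have ht1 : Tendsto (fun x : ℝ => x ^ ε) atTop atTop := tendsto_rpow_atTop hε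
  have ht2 : Tendsto (fun x : ℝ => x ^ (1 - 2 * ε)) atTop atTop :=
    tendsto_rpow_atTop (by linarith)
  filter_upwards [ht1.eventually_ge_atTop (2 * ((N : ℝ) + 1)),
    ht2.eventually_ge_atTop (max 2 (Y₂ : ℝ)), eventually_ge_atTop (max 2 (Y₁ : ℝ))] with
    x hx1 hx2 hx3
  have hx32 : 2 ≤ x := (le_max_left _ _).trans hx3
  have hx0 : 0 < x := by linarith
  have hx1' : 1 ≤ x := by linarith
  obtain ⟨y, hy⟩ : ∃ y : ℝ, y = x ^ (1 - 2 * ε) := ⟨_, rfl⟩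
  rw [← hy] at hx2
  rw [← hy]
  have hy2 : 2 ≤ y := (le_max_left _ _).trans hx2
  have hy0 : 0 < y := by linarith
  have hg1 := (cnt2_floor ε hε (by linarith) x hx32).trans
    (hg ⌊x⌋₊ (Nat.le_floor ((le_max_right _ _).trans hx3)))
  have hh1 := (cnt2_floor ε hε (by linarith) y hy2).trans
    (hh ⌊y⌋₊ (Nat.le_floor ((le_max_right _ _).trans hx2)))
  have hfl : ((⌊y⌋₊ : ℕ) : ℝ) ≤ y := Nat.floor_le hy0.le
  have hN : (0 : ℝ) ≤ N := Nat.cast_nonneg _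
  -- first factor
  have e1 : x ^ (1 - ε) = x ^ ε * y := by
    rw [hy, ← Real.rpow_add hx0]
    congr 1
    ring
  have f1 : y ≤ g ⌊x⌋₊ - N * (⌊y⌋₊ : ℕ) := by
    have a1 : 2 * ((N : ℝ) + 1) * y ≤ x ^ (1 - ε) := by
      rw [e1]
      exact mul_le_mul_of_nonneg_right hx1 hy0.le
    have a2 : (N : ℝ) * (⌊y⌋₊ : ℕ) ≤ N * y := mul_le_mul_of_nonneg_left hfl hN
    linarith
  -- second factor
  obtain ⟨z, hz⟩ : ∃ z : ℝ, z = x ^ (1 - 4 * ε) := ⟨_, rfl⟩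
  have hz1 : 1 ≤ z := by
    rw [hz]
    exact Real.one_le_rpow hx1' (by linarith)
  have e2 : x ^ ε * z ≤ y ^ (1 - ε) := by
    rw [hz, hy, ← Real.rpow_add hx0, ← Real.rpow_mul hx0.le]
    refine Real.rpow_le_rpow_of_exponent_le hx1' ?_
    nlinarith [sq_nonneg ε]
  have f2 : z ≤ h ⌊y⌋₊ - N := by
    have a1 : 2 * ((N : ℝ) + 1) * z ≤ y ^ (1 - ε) :=
      (mul_le_mul_of_nonneg_right hx1 (by linarith)).trans e2
    have a2 : (N : ℝ) * 1 ≤ N * z := mul_le_mul_of_nonneg_left hz1 hN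
    linarith
  have e3 : x ^ (2 - 6 * ε) = y * z := by
    rw [hy, hz, ← Real.rpow_add hx0]
    congr 1
    ring
  rw [e3]
  exact ⟨mul_le_mul f1 f2 (by linarith) (by linarith), by linarith⟩

theorem t_CNT2 (hP : S_PAP) : S_CNT2 := by
  intro S A C N ℓ hA hℓ H δ hδ
  classical
  choose! f hfS hf0 hfq hfr hfC using H
  have hA0 : (0 : ℝ) < A := by exact_mod_cast hA
  obtain ⟨δ', hδ'⟩ : ∃ δ' : ℝ, δ' = max δ 0 := ⟨_, rfl⟩
  have hd0 : 0 ≤ δ' := hδ' ▸ le_max_right _ _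
  have hdd : δ ≤ δ' := hδ' ▸ le_max_left _ _
  have hd1 : (A : ℝ) * δ' < 2 := by
    have h : δ' < 2 / (A : ℝ) := by
      rw [hδ']
      exact max_lt hδ (by positivity)
    rw [lt_div_iff₀ hA0] at h
    linarith
  obtain ⟨ε, hεd⟩ : ∃ ε : ℝ, ε = (2 - A * δ') / 8 := ⟨_, rfl⟩
  have hAd : 0 ≤ (A : ℝ) * δ' := by positivity
  have hε : 0 < ε := by linarith
  have hε4 : 4 * ε ≤ 1 := by linarith
  have hε6 : (A : ℝ) * δ' < 2 - 6 * ε := by linarith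
  obtain ⟨Y₁, hY₁⟩ := hP 1 le_rfl ε hε
  obtain ⟨Y₂, hY₂⟩ := hP ℓ hℓ ε hε
  -- the larger of `C` and one
  obtain ⟨C', hC'⟩ : ∃ C' : ℕ, C' = C + 1 := ⟨_, rfl⟩
  have hCr : (1 : ℝ) ≤ C' := by
    rw [hC']
    push_cast
    linarith [Nat.cast_nonneg (α := ℝ) C]
  have hCC : (C : ℝ) ≤ C' := by
    rw [hC']
    push_cast
    linarith
  have hC0 : (0 : ℝ) < C' := by linarith
  have hlogC : 0 ≤ Real.log C' := Real.log_nonneg hCr
  have hmain := cnt2_main ε hε hε4 N Y₁ Y₂ _ _ hY₁ hY₂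
  have hpow := cnt2_pow (A * δ') (2 - 6 * ε) hε6
    ((C' : ℝ) ^ δ' * (2 * Real.log C' + 2 * A) ^ 2) (by positivity)
  have htend : Tendsto (fun X : ℝ => (X / C') ^ (1 / (A : ℝ))) atTop atTop :=
    (tendsto_rpow_atTop (by positivity)).comp (tendsto_id.atTop_div_const hC0)
  have hev := (htend.eventually ((hmain.and hpow).and (eventually_ge_atTop (Real.exp 1)))).and
    (eventually_gt_atTop (1 : ℝ))
  obtain ⟨X₀, hX₀⟩ := eventually_atTop.1 hev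
  refine ⟨X₀, fun X hX => ?_⟩
  obtain ⟨⟨⟨⟨hx, hxs⟩, hxp⟩, hxe1⟩, hX1⟩ := hX₀ X hX
  obtain ⟨x, hxe⟩ : ∃ x : ℝ, x = (X / C') ^ (1 / (A : ℝ)) := ⟨_, rfl⟩
  rw [← hxe] at hx hxs hxp hxe1
  have he : (2 : ℝ) ≤ Real.exp 1 := by
    have := Real.add_one_le_exp (1 : ℝ)
    linarith
  have hx2 : 2 ≤ x := he.trans hxe1
  have hX0 : 0 < X := by linarith
  have hx0 : 0 < x := by linarith
  have hL : 1 ≤ Real.log x := by
    rw [Real.le_log_iff_exp_le hx0]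
    exact hxe1
  have hxA : x ^ A = X / C' := by
    rw [hxe, ← Real.rpow_natCast, ← Real.rpow_mul (by positivity), one_div,
      inv_mul_cancel₀ hA0.ne', Real.rpow_one]
  have hXx : X = C' * x ^ A := by
    rw [hxA]
    field_simp
  have hlX : Real.log X = Real.log C' + A * Real.log x := by
    rw [hXx, Real.log_mul hC0.ne' (by positivity), Real.log_pow]
  have hlX0 : 0 < Real.log X := Real.log_pos hX1
  have hXd : X ^ δ' = (C' : ℝ) ^ δ' * x ^ (A * δ') := by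
    conv_lhs => rw [hXx]
    rw [Real.mul_rpow hC0.le (by positivity), ← Real.rpow_natCast, ← Real.rpow_mul hx0.le]
  have hlX2 : 2 * Real.log X ≤ (2 * Real.log C' + 2 * A) * Real.log x := by
    rw [hlX]
    nlinarith
  have hXlog : X ^ δ' * (2 * Real.log X) ^ 2 ≤ x ^ (2 - 6 * ε) := by
    refine le_trans ?_ hxp
    have h1 : (2 * Real.log X) ^ 2 ≤ ((2 * Real.log C' + 2 * A) * Real.log x) ^ 2 :=
      pow_le_pow_left₀ (by positivity) hlX2 2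
    rw [hXd]
    have h2 : 0 ≤ (C' : ℝ) ^ δ' * x ^ (A * δ') := by positivity
    refine (mul_le_mul_of_nonneg_left h1 h2).trans (le_of_eq ?_)
    ring
  have hbig := hXlog.trans hx
  -- the sets
  obtain ⟨R, hR⟩ : ∃ R : ℕ, R = ⌊x ^ (1 - 2 * ε)⌋₊ := ⟨_, rfl⟩
  rw [← hR] at hbig hxs
  obtain ⟨Q₁, hQ₁⟩ : ∃ Q : Finset ℕ, Q = (Finset.range (⌊x⌋₊ + 1)).filter
    (fun r => r.Prime ∧ r % 1 = 1 % 1) := ⟨_, rfl⟩
  obtain ⟨Q₂, hQ₂⟩ : ∃ Q : Finset ℕ, Q = (Finset.range (R + 1)).filter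
    (fun r => r.Prime ∧ r % ℓ = 1 % ℓ) := ⟨_, rfl⟩
  rw [← hQ₁, ← hQ₂] at hbig
  rw [← hQ₂] at hxs
  obtain ⟨P₁, hP₁⟩ : ∃ P : Finset ℕ, P = Q₁.filter (fun q => N * R < q) := ⟨_, rfl⟩
  obtain ⟨P₂, hP₂⟩ : ∃ P : Finset ℕ, P = Q₂.filter (fun q => N < q) := ⟨_, rfl⟩
  have hm1 : ∀ q ∈ P₁, q.Prime ∧ N * R < q ∧ (q : ℝ) ≤ x := by
    intro q hq
    rw [hP₁, Finset.mem_filter, hQ₁, Finset.mem_filter, Finset.mem_range] at hq
    refine ⟨hq.1.2.1, hq.2, ?_⟩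
    exact (Nat.le_floor_iff hx0.le).1 (by omega)
  have hm2 : ∀ r ∈ P₂, r.Prime ∧ N < r ∧ r ≤ R ∧ r % ℓ = 1 % ℓ := by
    intro q hq
    rw [hP₂, Finset.mem_filter, hQ₂, Finset.mem_filter, Finset.mem_range] at hq
    exact ⟨hq.1.2.1, hq.2, by omega, hq.1.2.2⟩
  have hc1 : Q₁.card ≤ P₁.card + N * R := by
    have h2 : Q₁ ⊆ P₁ ∪ Finset.Icc 1 (N * R) := by
      intro q hq
      rw [Finset.mem_union, hP₁, Finset.mem_filter, Finset.mem_Icc]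
      by_cases hqN : N * R < q
      · exact Or.inl ⟨hq, hqN⟩
      · rw [hQ₁, Finset.mem_filter] at hq
        exact Or.inr ⟨hq.2.1.one_lt.le, by omega⟩
    refine (Finset.card_le_card h2).trans ((Finset.card_union_le _ _).trans ?_)
    simp
  have hc2 : Q₂.card ≤ P₂.card + N := by
    have h2 : Q₂ ⊆ P₂ ∪ Finset.Icc 1 N := by
      intro q hq
      rw [Finset.mem_union, hP₂, Finset.mem_filter, Finset.mem_Icc]
      by_cases hqN : N < q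
      · exact Or.inl ⟨hq, hqN⟩
      · rw [hQ₂, Finset.mem_filter] at hq
        exact Or.inr ⟨hq.2.1.one_lt.le, by omega⟩
    refine (Finset.card_le_card h2).trans ((Finset.card_union_le _ _).trans ?_)
    simp
  have hfin : {d : ℤ | d ∈ S ∧ ((|d| : ℤ) : ℝ) ≤ X}.Finite := by
    refine (Set.finite_Icc (-⌊X⌋) ⌊X⌋).subset ?_
    rintro d ⟨-, hd⟩
    have h : |d| ≤ ⌊X⌋ := Int.le_floor.2 hd
    rw [Set.mem_Icc]
    exact abs_le.1 h
  have hok : ∀ p ∈ P₁ ×ˢ P₂, p.1.Prime ∧ p.2.Prime ∧ N < p.2 ∧ N * p.2 < p.1 ∧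
      p.2 % ℓ = 1 % ℓ ∧ (p.1 : ℝ) ≤ x := by
    intro p hp
    rw [Finset.mem_product] at hp
    obtain ⟨a1, a2, a3⟩ := hm1 _ hp.1
    obtain ⟨b1, b2, b3, b4⟩ := hm2 _ hp.2
    exact ⟨a1, b1, b2, lt_of_le_of_lt (Nat.mul_le_mul_left N b3) a2, b4, a3⟩
  have hmaps : ∀ p ∈ P₁ ×ˢ P₂, f p.1 p.2 ∈ hfin.toFinset := by
    intro p hp
    obtain ⟨h1, h2, h3, h4, h5, h6⟩ := hok p hp
    rw [Set.Finite.mem_toFinset]
    refine ⟨hfS p.1 p.2 h1 h2 h3 h4 h5, ?_⟩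
    have h7 : ((|f p.1 p.2| : ℤ) : ℝ) ≤ (C : ℝ) * (p.1 : ℝ) ^ A := by
      exact_mod_cast hfC p.1 p.2 h1 h2 h3 h4 h5
    refine h7.trans ?_
    rw [hXx]
    exact mul_le_mul hCC (pow_le_pow_left₀ (by positivity) h6 A) (by positivity) hC0.le
  have hl2 : 0 < Real.log 2 := Real.log_pos (by norm_num)
  have hl2' : 1 / 2 < Real.log 2 := by
    have := Real.log_two_gt_d9
    linarith
  have hsub : ∀ (P : Finset ℕ) (d : ℤ), (∀ q ∈ P, q.Prime) → d ≠ 0 → ((|d| : ℤ) : ℝ) ≤ X →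
      (P.filter (fun q : ℕ => (q : ℤ) ∣ d)).card ≤ ⌊2 * Real.log X⌋₊ := by
    intro P d hPp h0 hd
    have h1 := cnt_fibre (P.filter (fun q : ℕ => (q : ℤ) ∣ d))
      (fun q hq => hPp q (Finset.mem_filter.1 hq).1) d h0
      (fun q hq => (Finset.mem_filter.1 hq).2)
    have h2 := h1.trans hd
    have h3 := Real.log_le_log (by positivity) h2
    rw [Real.log_pow] at h3
    refine Nat.le_floor ?_
    have h4 : (0 : ℝ) ≤ ((P.filter (fun q : ℕ => (q : ℤ) ∣ d)).card : ℝ) := Nat.cast_nonneg _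
    nlinarith
  have hfib : ∀ d ∈ hfin.toFinset, ((P₁ ×ˢ P₂).filter (fun p => f p.1 p.2 = d)).card ≤
      ⌊2 * Real.log X⌋₊ * ⌊2 * Real.log X⌋₊ := by
    intro d hd
    rw [Set.Finite.mem_toFinset] at hd
    by_cases h0 : d = 0
    · have : (P₁ ×ˢ P₂).filter (fun p => f p.1 p.2 = d) = ∅ := by
        rw [Finset.filter_eq_empty_iff]
        intro p hp h
        obtain ⟨h1, h2, h3, h4, h5, h6⟩ := hok p hp
        exact hf0 p.1 p.2 h1 h2 h3 h4 h5 (h.trans h0)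
      rw [this]
      simp
    · have hs : (P₁ ×ˢ P₂).filter (fun p => f p.1 p.2 = d) ⊆
          (P₁.filter (fun q : ℕ => (q : ℤ) ∣ d)) ×ˢ (P₂.filter (fun q : ℕ => (q : ℤ) ∣ d)) := by
        intro p hp
        obtain ⟨ha, hb⟩ := Finset.mem_filter.1 hp
        obtain ⟨h1, h2, h3, h4, h5, h6⟩ := hok p ha
        rw [Finset.mem_product] at ha
        rw [Finset.mem_product, Finset.mem_filter, Finset.mem_filter, ← hb]
        exact ⟨⟨ha.1, hfq p.1 p.2 h1 h2 h3 h4 h5⟩, ha.2, hfr p.1 p.2 h1 h2 h3 h4 h5⟩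
      refine (Finset.card_le_card hs).trans ?_
      rw [Finset.card_product]
      exact Nat.mul_le_mul (hsub P₁ d (fun q hq => (hm1 q hq).1) h0 hd.2)
        (hsub P₂ d (fun q hq => (hm2 q hq).1) h0 hd.2)
  have hcard := Finset.card_le_mul_card_image_of_maps_to hmaps _ hfib
  have hnc : {d : ℤ | d ∈ S ∧ ((|d| : ℤ) : ℝ) ≤ X}.ncard = hfin.toFinset.card :=
    Set.ncard_eq_toFinset_card _ hfin
  rw [hnc]
  rw [Finset.card_product] at hcard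
  have hfl : (⌊2 * Real.log X⌋₊ : ℝ) ≤ 2 * Real.log X := Nat.floor_le (by positivity)
  have h5 : (P₁.card : ℝ) * P₂.card ≤ (2 * Real.log X) ^ 2 * (hfin.toFinset.card : ℝ) := by
    have h6 : (P₁.card : ℝ) * P₂.card ≤
        ((⌊2 * Real.log X⌋₊ : ℝ) * (⌊2 * Real.log X⌋₊ : ℝ)) * (hfin.toFinset.card : ℝ) := by
      exact_mod_cast hcard
    refine h6.trans (mul_le_mul_of_nonneg_right ?_ (Nat.cast_nonneg _))
    rw [sq]
    exact mul_le_mul hfl hfl (Nat.cast_nonneg _) (by positivity)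
  have h7 : (Q₁.card : ℝ) - N * R ≤ P₁.card := by
    have : (Q₁.card : ℝ) ≤ P₁.card + N * R := by exact_mod_cast hc1
    linarith
  have h8 : (Q₂.card : ℝ) - N ≤ P₂.card := by
    have : (Q₂.card : ℝ) ≤ P₂.card + N := by exact_mod_cast hc2
    linarith
  have h9 : ((Q₁.card : ℝ) - N * R) * ((Q₂.card : ℝ) - N) ≤ (P₁.card : ℝ) * P₂.card :=
    mul_le_mul h7 h8 hxs (Nat.cast_nonneg _)
  have h10 : X ^ δ' * (2 * Real.log X) ^ 2 ≤
      (hfin.toFinset.card : ℝ) * (2 * Real.log X) ^ 2 := by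
    linarith
  have h11 : X ^ δ' ≤ (hfin.toFinset.card : ℝ) := le_of_mul_le_mul_right h10 (by positivity)
  exact (Real.rpow_le_rpow_of_exponent_le hX1.le hdd).trans h11

end Pool.Agent.NH14.CN
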