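import Pool.Agent.NH14.CN.Stm
import Pool.Agent.W289.CG.Core3

/-!
# Project CN: the fields, with a bound for the discriminant
-/

set_option autoImplicit false

namespace Pool.Agent.NH14.CN

open Polynomial NumberField nonZeroDivisors
open Pool.Agent.W289.CG

/-- the exact power of `q` in `t ^ m - s ^ m` -/
theorem exact_power' {q m : ℕ} (hq : q.Prime) (hqm : ¬ q ∣ m) {s t : ℤ}
    (hs : ¬ (q : ℤ) ∣ s) (h1 : (q : ℤ) ∣ t - s) (h2 : ¬ (q : ℤ) ^ 2 ∣ t - s) :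
    (q : ℤ) ∣ t ^ m - s ^ m ∧ ¬ (q : ℤ) ^ 2 ∣ t ^ m - s ^ m := by
  have hqp : Prime (q : ℤ) := Nat.prime_iff_prime_int.1 hq
  have h3 := geom_sum₂_mul t s m
  have h4 : ¬ (q : ℤ) ∣ ∑ i ∈ Finset.range m, t ^ i * s ^ (m - 1 - i) := by
    rw [← zmod_iff]
    push_cast
    have ht : (t : ZMod q) = s := by
      have := (zmod_iff (q := q) _).2 h1
      push_cast at this
      exact sub_eq_zero.1 this
    rw [ht]
    have h5 : ∀ i ∈ Finset.range m,
        (s : ZMod q) ^ i * (s : ZMod q) ^ (m - 1 - i) = (s : ZMod q) ^ (m - 1) := by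
      intro i hi
      rw [← pow_add]
      congr 1
      have := Finset.mem_range.1 hi
      omega
    rw [Finset.sum_congr rfl h5, Finset.sum_const, Finset.card_range, nsmul_eq_mul]
    have : Fact q.Prime := ⟨hq⟩
    refine mul_ne_zero ?_ (pow_ne_zero _ ?_)
    · rw [Ne, ZMod.natCast_eq_zero_iff]
      exact hqm
    · rw [Ne, zmod_iff]
      exact hs
  refine ⟨h1.trans (Dvd.intro_left _ h3), ?_⟩
  intro h
  rw [← h3] at h
  exact h2 (hqp.pow_dvd_of_dvd_mul_left 2 h4 h)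

theorem arithR {n k : ℕ} {D : Dat n k} {m q₁ q : ℕ} {s t : ℤ} (hG : GoodR D m q₁ s t)
    (hm : 2 ≤ m) (hs : 0 < s) (hst : s < t) (hcop : IsCoprime s t) (hq : q.Prime) (hqm : ¬ q ∣ m)
    (hqc : ¬ (q : ℤ) ∣ D.c) (hqs : ¬ (q : ℤ) ∣ s) (h1 : (q : ℤ) ∣ t - s)
    (h2 : ¬ (q : ℤ) ^ 2 ∣ t - s) :
    ∃ L : ℤ, 0 < L ∧ L * D.c = t ^ m - s ^ m ∧ IsCoprime L (s ^ m) ∧ (q : ℤ) ∣ L ∧
      ¬ (q : ℤ) ^ 2 ∣ L ∧ ¬ (q : ℤ) ∣ s ^ m ∧ IsCoprime s D.bad ∧ IsCoprime t D.bad := by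
  have hc : D.c ∣ t ^ m - s ^ m := by
    refine Dvd.dvd.trans ?_ (sub_dvd_pow_sub_pow t s m)
    have := hG.htc.sub hG.hsc
    have h : t - s = t - 1 - (s - 1) := by ring
    rw [h]; exact this
  obtain ⟨L, hL⟩ := hc
  have hpow : s ^ m < t ^ m := pow_lt_pow_left₀ hst hs.le (by omega)
  have hLpos : 0 < L := by
    have h1 : 0 < D.c * L := by rw [← hL]; linarith
    exact pos_of_mul_pos_right h1 D.hc.le |> fun h => h
  have hcop2 : IsCoprime (t ^ m - s ^ m) (s ^ m) := by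
    have h1 : IsCoprime (t ^ m) (s ^ m) := (hcop.symm).pow
    have h2 : t ^ m - s ^ m = t ^ m + s ^ m * (-1) := by ring
    rw [h2]
    exact IsCoprime.add_mul_left_left h1 _
  have hex := exact_power' hq hqm hqs h1 h2
  have hp : Prime (q : ℤ) := Nat.prime_iff_prime_int.1 hq
  have hone : ∀ x d : ℤ, d ∣ x - 1 → IsCoprime x d := by
    intro x d ⟨w, hw⟩
    exact ⟨1, -w, by linear_combination hw⟩
  refine ⟨L, hLpos, by rw [hL]; ring, ?_, ?_, ?_, ?_, hone _ _ hG.hsb, hone _ _ hG.htb⟩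
  · rw [hL] at hcop2
    exact IsCoprime.of_mul_left_right hcop2
  · have h1 := hex.1
    rw [hL] at h1
    exact (hp.dvd_or_dvd h1).resolve_left hqc
  · intro h
    exact hex.2 (by rw [hL]; exact Dvd.dvd.mul_left h _)
  · intro h
    exact hqs (hp.dvd_of_dvd_pow h)

/-- the bound for the discriminant -/
theorem disc_bound (hINT : S_INT) (hDIV : S_DIV) (hVDM : S_VDM) (K : Type) [Field K] [NumberField K]
    (n : ℕ) (a : Fin n → ℤ) (L S : ℤ) (θ : K) (B : ℝ) (hn : 2 ≤ n) (hfr : Module.finrank ℚ K = n)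
    (hL : 0 < L) (hgen : IntermediateField.adjoin ℚ {θ} = ⊤)
    (hθ : (L : K) * ∏ i, (θ - (a i : K)) + (S : K) = 0) (hB : ∀ φ : K →+* ℂ, ‖φ θ‖ ≤ B) :
    ((|discr K| : ℤ) : ℝ) ≤ (L : ℝ) ^ (2 * (n - 1)) * (2 * B) ^ (n * (n - 1)) := by
  obtain ⟨b, hb, hbd⟩ := hVDM K n L θ B hfr hn hL hgen hB
  have h1 := hDIV K n b (by
    intro i
    rw [hb i]
    split_ifs with h
    · exact isIntegral_one
    · exact hINT K n a L S θ (by omega) hθ i i.isLt)
  have h2 : ((((|discr K| : ℤ) : ℚ)) : ℝ) ≤ ((|Algebra.discr ℚ b| : ℚ) : ℝ) := by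
    exact_mod_cast h1
  have h3 : ((((|discr K| : ℤ) : ℚ)) : ℝ) = ((|discr K| : ℤ) : ℝ) := by norm_cast
  rw [h3] at h2
  exact h2.trans hbd

theorem t_Q (hCls : TaskCls) (hVal : TaskVal) (hLoc : TaskLoc) (hEmb : TaskEmb) (hMu : TaskMu)
    (hRed : TaskRed) (hWeil : TaskWeil) (hRoot : TaskRoot) (hIrr : TaskIrr)
    (hDisc : TaskDisc) (hPl : TaskPl) (hST : S_ST) (hGR : S_GR) (hINT : S_INT) (hDIV : S_DIV)
    (hVDM : S_VDM) (hROOT : S_ROOT) : S_Q := by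
  intro n k D r₁ v₁ v₂ hn hk h₁ h₁₂ hcount m hm
  have hcR : (0 : ℝ) < D.c := by exact_mod_cast D.hc
  have h₂ : 0 < v₂ := h₁.trans h₁₂
  have hm0 : m ≠ 0 := by omega
  have hmR : (0 : ℝ) < (m : ℝ)⁻¹ := by positivity
  set x : ℝ := (1 + D.c / v₂) ^ ((m : ℝ)⁻¹) with hx
  set y : ℝ := (1 + D.c / v₁) ^ ((m : ℝ)⁻¹) with hy
  have hx0 : 0 ≤ 1 + D.c / v₂ := by positivity
  have hy0 : 0 ≤ 1 + D.c / v₁ := by positivity
  have hxm : x ^ m = 1 + D.c / v₂ := Real.rpow_inv_natCast_pow hx0 hm0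
  have hym : y ^ m = 1 + D.c / v₁ := Real.rpow_inv_natCast_pow hy0 hm0
  have hx1 : 1 ≤ x := Real.one_le_rpow (by
    have : 0 < D.c / v₂ := div_pos hcR h₂
    linarith) hmR.le
  have hxy : x < y := Real.rpow_lt_rpow hx0 (by
    have : D.c / v₂ < D.c / v₁ := div_lt_div_of_pos_left hcR h₁ h₁₂
    linarith) hmR
  obtain ⟨q₁, M, s₀, t₀, hM, hcop, hgood⟩ := hGR hWeil hRoot n k D m (by omega) hk hm
  obtain ⟨C₁, hC₁⟩ := hST M s₀ t₀ x y hM hcop hx1 hxy
  obtain ⟨B, hB0, hB⟩ := hROOT n D.a v₂ (by omega)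
  set C' : ℝ := (C₁ : ℝ) ^ (2 * m * (n - 1)) * (2 * B) ^ (n * (n - 1)) with hC'
  have hC'0 : 0 ≤ C' := by positivity
  refine ⟨⌈C'⌉₊, C₁ + D.c.natAbs + m, fun q hq hqN => ?_⟩
  obtain ⟨s, t, hs, ht, hs0, hst, hxs, hys, htC, hqts, hqts2, hqs⟩ := hC₁ q hq (by omega)
  have hG := hgood s t hs ht
  have hsR : (0 : ℝ) < s := by exact_mod_cast hs0
  have hslt : s < t := by
    have h1 : (s : ℝ) < t := by nlinarith
    exact_mod_cast h1
  have hqm : ¬ q ∣ m := fun h => by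
    have := Nat.le_of_dvd (by omega) h
    omega
  have hqc : ¬ (q : ℤ) ∣ D.c := not_dvd_of_lt D.hc.ne' (by omega)
  obtain ⟨L, hL0, hLc, hcopL, hqL, hqL2, hqs', hsb, htb⟩ :=
    arithR hG hm hs0 hslt hst hq hqm hqc hqs hqts hqts2
  have hirr := hIrr n D.a L (s ^ m) q (by omega) hq hqL hqL2 hqs' hcopL
  obtain ⟨K, hK1, hK2, θ, hfr, hθ, hgen⟩ := exists_field _ hirr
  rw [natDegree_F (by omega) D.a L _ hL0.ne'] at hfr
  have hθ' := hθ
  rw [eval_F] at hθ'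
  have hF : Fld D m s t L K θ := ⟨hLc, by push_cast at hθ'; exact hθ', hgen⟩
  have htn : t ≠ 0 := (hs0.trans hslt).ne'
  have hpt := ne_pt hF hs0.ne' htn
  have hLR : (0 : ℝ) < L := by exact_mod_cast hL0
  have hLcR : (L : ℝ) * D.c = (t : ℝ) ^ m - (s : ℝ) ^ m := by exact_mod_cast hLc
  -- the value
  have hsm : (0 : ℝ) < (s : ℝ) ^ m := by positivity
  have htR : (s : ℝ) < t := by exact_mod_cast hslt
  have h3 : (1 + D.c / v₂) * (s : ℝ) ^ m < (t : ℝ) ^ m := by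
    rw [← hxm, ← mul_pow]
    exact pow_lt_pow_left₀ hxs (by positivity) hm0
  have h4 : (t : ℝ) ^ m < (1 + D.c / v₁) * (s : ℝ) ^ m := by
    rw [← hym, ← mul_pow]
    exact pow_lt_pow_left₀ hys (by linarith) hm0
  have h5 : 0 < (t : ℝ) ^ m - (s : ℝ) ^ m := by
    have h6 : 0 < D.c / v₂ * (s : ℝ) ^ m := by positivity
    nlinarith
  have hv1 : v₁ < (s : ℝ) ^ m * D.c / ((t : ℝ) ^ m - (s : ℝ) ^ m) := by
    rw [lt_div_iff₀ h5]
    have h6 : (t : ℝ) ^ m - (s : ℝ) ^ m < D.c / v₁ * (s : ℝ) ^ m := by nlinarith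
    calc v₁ * ((t : ℝ) ^ m - (s : ℝ) ^ m) < v₁ * (D.c / v₁ * (s : ℝ) ^ m) :=
          mul_lt_mul_of_pos_left h6 h₁
      _ = (s : ℝ) ^ m * D.c := by field_simp
  have hv2 : (s : ℝ) ^ m * D.c / ((t : ℝ) ^ m - (s : ℝ) ^ m) < v₂ := by
    rw [div_lt_iff₀ h5]
    have h6 : D.c / v₂ * (s : ℝ) ^ m < (t : ℝ) ^ m - (s : ℝ) ^ m := by nlinarith
    calc (s : ℝ) ^ m * D.c = v₂ * (D.c / v₂ * (s : ℝ) ^ m) := by field_simp
      _ < v₂ * ((t : ℝ) ^ m - (s : ℝ) ^ m) := mul_lt_mul_of_pos_left h6 h₂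
  set v : ℝ := (s : ℝ) ^ m * D.c / ((t : ℝ) ^ m - (s : ℝ) ^ m) with hv
  have hvL : v * L = (s : ℝ) ^ m := by
    rw [hv, ← hLcR]
    field_simp
  refine ⟨K, hK1, hK2, hfr, ?_, ?_, ?_, ?_⟩
  · rw [hPl K _ θ hirr hθ hgen, ← hcount v hv1 hv2]
    congr 1
    ext X
    simp only [Set.mem_setOf_eq]
    rw [eval_F]
    push_cast
    rw [← hvL]
    constructor
    · intro h
      have h6 : (L : ℝ) * (∏ i, (X - (D.a i : ℝ)) + v) = 0 := by linear_combination h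
      have h7 := (mul_eq_zero.1 h6).resolve_left hLR.ne'
      linarith
    · intro h
      rw [h]
      ring
  · exact hDisc K n D.a L (s ^ m) q θ hn hfr hq hqL hqL2 hqs' hθ' hgen
  · -- the bound
    have hφ : ∀ φ : K →+* ℂ, ‖φ θ‖ ≤ B := by
      intro φ
      refine hB (φ θ) v (h₁.trans hv1).le hv2.le ?_
      have h6 := congrArg φ hθ'
      rw [map_add, map_mul, map_prod, map_intCast, map_intCast, map_zero] at h6
      have h7 : ∀ i, φ (θ - (D.a i : K)) = φ θ - (D.a i : ℂ) := by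
        intro i
        rw [map_sub, map_intCast]
      simp only [h7] at h6
      have h8 : ((s ^ m : ℤ) : ℂ) = (v : ℂ) * (L : ℂ) := by
        have h9 : (((s : ℝ) ^ m : ℝ) : ℂ) = ((v * L : ℝ) : ℂ) := by rw [hvL]
        push_cast at h9 ⊢
        exact h9
      rw [h8] at h6
      have hLC : (L : ℂ) ≠ 0 := by exact_mod_cast hL0.ne'
      have h9 : (L : ℂ) * (∏ i, (φ θ - (D.a i : ℂ)) + (v : ℂ)) = 0 := by linear_combination h6
      have h10 := (mul_eq_zero.1 h9).resolve_left hLC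
      exact eq_neg_of_add_eq_zero_left h10
    have hdb := disc_bound hINT hDIV hVDM K n D.a L (s ^ m) θ B hn hfr hL0 hgen hθ' hφ
    have hLt : (L : ℝ) ≤ ((C₁ : ℝ) * q) ^ m := by
      have hc1 : (1 : ℝ) ≤ D.c := by exact_mod_cast D.hc
      calc (L : ℝ) ≤ L * D.c := le_mul_of_one_le_right hLR.le hc1
        _ = (t : ℝ) ^ m - (s : ℝ) ^ m := hLcR
        _ ≤ (t : ℝ) ^ m := by linarith
        _ ≤ ((C₁ : ℝ) * q) ^ m := pow_le_pow_left₀ (by linarith) htC m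
    have h6 : ((|discr K| : ℤ) : ℝ) ≤ C' * (q : ℝ) ^ (2 * m * (n - 1)) := by
      refine hdb.trans ?_
      calc (L : ℝ) ^ (2 * (n - 1)) * (2 * B) ^ (n * (n - 1)) ≤
            (((C₁ : ℝ) * q) ^ m) ^ (2 * (n - 1)) * (2 * B) ^ (n * (n - 1)) := by
              refine mul_le_mul_of_nonneg_right ?_ (by positivity)
              exact pow_le_pow_left₀ hLR.le hLt _
        _ = C' * (q : ℝ) ^ (2 * m * (n - 1)) := by
              rw [hC', ← pow_mul, mul_pow]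
              have e : m * (2 * (n - 1)) = 2 * m * (n - 1) := by ring
              rw [e]
              ring
    have h7 : ((|discr K| : ℤ) : ℝ) ≤ (((⌈C'⌉₊ : ℤ) * (q : ℤ) ^ (2 * m * (n - 1)) : ℤ) : ℝ) := by
      refine h6.trans ?_
      push_cast
      exact mul_le_mul_of_nonneg_right (Nat.le_ceil C') (by positivity)
    exact_mod_cast h7
  · intro R hR
    obtain ⟨N', hN'⟩ : ∃ N', n + k = N' + 1 := ⟨n + k - 1, by omega⟩
    let σ : Fin (N' + 1) ≃ Fin n ⊕ Fin k := (finCongr hN'.symm).trans finSumFinEquiv.symm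
    refine hCls K N' m R hm (by omega) (elt D σ θ hpt) ?_ ?_ ?_
    · intro i
      refine hVal K m _ (by omega) fun v => ?_
      exact hLoc n k D m s t L K θ (by omega) (by omega) hL0.ne' hs0.ne' htn hF hst hsb htb _ _ v
    · intro ℓ hℓ hℓm
      exact indep_of_tests hEmb hRed hfr (by omega) hL0.ne' hF hpt σ ℓ hℓ (hG.tests ℓ hℓ hℓm)
    · intro ℓ hℓ hℓm
      have hx1 : Tst D m q₁ s t (D.b ⟨0, hk⟩) := by
        have hp : Prime (q₁ : ℤ) := Nat.prime_iff_prime_int.1 hG.hq₁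
        refine ⟨hG.hq₁, hG.hc₁, ?_, ?_, ?_⟩
        · rw [D.hab, sub_self, mul_zero, sub_zero]
          exact Dvd.dvd.mul_right (dvd_pow hG.ht₁ (by omega)) _
        · intro h
          have h1 : (q₁ : ℤ) ∣ s ^ m := by
            have := (dvd_pow hG.ht₁ (show m ≠ 0 by omega)).sub h
            simpa using this
          have h2 := hp.dvd_of_dvd_pow h1
          have h3 : (q₁ : ℤ) ∣ 1 := by
            have := h2.sub hG.hs₁
            simpa using this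
          exact hp.not_isUnit (isUnit_of_dvd_one h3)
        · intro h
          exact hG.hbad (h.trans (dvd_bad D (Sum.inr ⟨0, hk⟩)))
      have hle : ℓ ≤ m := Nat.le_of_dvd (by omega) hℓm
      have hq1 : q₁ - 1 + 2 = q₁ + 1 := by have := hG.hq4; omega
      refine ⟨fun hℓ2 => ?_, fun hℓ2 => ?_⟩
      · refine no_zeta hEmb hMu hfr (by omega) hL0.ne' hF hG.hq₁ hx1 ?_ ?_
        · intro h
          have := Nat.le_of_dvd hℓ.pos h
          have := hG.hqm'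
          omega
        · intro h
          have h1 : ℓ ∣ q₁ + 1 := (hℓm.trans (Dvd.intro_left _ rfl)).trans hG.hqm
          rw [← hq1] at h1
          have h2 : ℓ ∣ 2 := (Nat.dvd_add_right h).1 h1
          exact hℓ2 ((Nat.prime_dvd_prime_iff_eq hℓ Nat.prime_two).1 h2)
      · refine no_zeta hEmb hMu hfr (by omega) hL0.ne' hF hG.hq₁ hx1 ?_ ?_
        · intro h
          have := Nat.le_of_dvd (by norm_num) h
          have := hG.hq4
          omega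
        · intro h
          have h1 : 4 ∣ q₁ + 1 := (Dvd.intro _ rfl).trans hG.hqm
          rw [← hq1] at h1
          have h2 : 4 ∣ 2 := (Nat.dvd_add_right h).1 h1
          norm_num at h2

end Pool.Agent.NH14.CN
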