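import Pool.Agent.NH14.CN.Stm

set_option autoImplicit false

namespace Pool.Agent.NH14.CN

open NumberField

theorem t_DIV : S_DIV := by
  classical
  intro K _ _ n b hb
  let c := integralBasis K
  let e := c.indexEquiv b
  let c' : Module.Basis (Fin n) ℚ K := c.reindex e
  choose x hx using fun i => (show ∃ x : 𝓞 K, algebraMap (𝓞 K) K x = b i from ⟨⟨b i, hb i⟩, rfl⟩)
  let P : Matrix (Fin n) (Fin n) ℤ := fun i j => (RingOfIntegers.basis K).repr (x i) (e.symm j)
  have hP : ((P.map (Int.castRingHom ℚ)).map (algebraMap ℚ K)).mulVec c' = b := by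
    funext i
    rw [Matrix.mulVec, dotProduct]
    conv_rhs => rw [← c'.sum_repr (b i)]
    refine Finset.sum_congr rfl fun j _ => ?_
    rw [Matrix.map_apply, Matrix.map_apply, ← Algebra.smul_def]
    congr 1
    rw [Module.Basis.repr_reindex_apply, ← hx i, integralBasis_repr_apply]
    rfl
  have h1 := Algebra.discr_of_matrix_mulVec (A := ℚ) (c' : Fin n → K) (P.map (Int.castRingHom ℚ))
  rw [hP] at h1
  have h2 : Algebra.discr ℚ (c' : Fin n → K) = (discr K : ℚ) := by
    rw [coe_discr]
    have : (c' : Fin n → K) = c ∘ e.symm := by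
      funext i
      exact Module.Basis.reindex_apply _ _ _
    rw [this, Algebra.discr_reindex]
  have h3 : (P.map (Int.castRingHom ℚ)).det = ((P.det : ℤ) : ℚ) := by
    have := (RingHom.map_det (Int.castRingHom ℚ) P).symm
    rw [RingHom.mapMatrix_apply] at this
    exact this
  rw [h2, h3] at h1
  have h4 := Algebra.discr_not_zero_of_basis ℚ b
  rw [h1] at h4 ⊢
  have h5 : P.det ≠ 0 := by
    intro h
    rw [h] at h4
    simp at h4
  have h6 : (1 : ℤ) ≤ P.det ^ 2 := by
    have : 0 < P.det ^ 2 := by positivity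
    omega
  have h7 : (1 : ℚ) ≤ ((P.det : ℤ) : ℚ) ^ 2 := by exact_mod_cast h6
  rw [abs_mul, abs_of_nonneg (by positivity : (0 : ℚ) ≤ ((P.det : ℤ) : ℚ) ^ 2), Int.cast_abs]
  exact le_mul_of_one_le_left (abs_nonneg _) h7

end Pool.Agent.NH14.CN
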