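import Pool.Agent.NH14.CN.Stm

/-!
# CN-INT: the numbers `L θ ^ k`, `k < n`, are integral
-/

set_option autoImplicit false

namespace Pool.Agent.NH14.CN

open Polynomial NumberField
open Pool.Agent.W289.CG

namespace INT

/-- the span of the powers `θ ^ j`, `j < n` -/
def NN {K : Type} [Field K] (n : ℕ) (θ : K) : Submodule ℤ K :=
  Submodule.span ℤ ((fun j : ℕ => θ ^ j) '' (Finset.range n : Set ℕ))

theorem pow_mem {K : Type} [Field K] (n : ℕ) (θ : K) (j : ℕ) (hj : j < n) : θ ^ j ∈ NN n θ :=
  Submodule.subset_span ⟨j, by simpa using hj, rfl⟩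

theorem int_mul_mem {K : Type} [Field K] (n : ℕ) (θ : K) (z : ℤ) (x : K) (hx : x ∈ NN n θ) :
    (z : K) * x ∈ NN n θ := by
  rw [← zsmul_eq_mul]
  exact Submodule.smul_mem _ z hx

theorem claim {K : Type} [Field K] (n : ℕ) (a : Fin n → ℤ) (L S : ℤ) (θ : K) (hn : 1 ≤ n)
    (h : (L : K) * ∏ i, (θ - (a i : K)) + (S : K) = 0) :
    ∀ i : ℕ, i ≤ 2 * n - 2 → (L : K) * θ ^ i ∈ NN n θ := by
  have hprod : ∏ i, (θ - (a i : K)) =
      ∑ i ∈ Finset.range (n + 1), ((pA a).coeff i : K) * θ ^ i := by
    have h1 : aeval θ (pA a) = ∏ i, (θ - (a i : K)) := by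
      rw [pA, map_prod]
      refine Finset.prod_congr rfl fun i _ => ?_
      simp
    rw [← h1, aeval_eq_sum_range, pA_natDegree]
    refine Finset.sum_congr rfl fun i _ => ?_
    rw [zsmul_eq_mul]
  have hlead : (pA a).coeff n = 1 := by
    have h1 := (pA_monic a).coeff_natDegree
    rwa [pA_natDegree] at h1
  rw [hprod, Finset.sum_range_succ, hlead, Int.cast_one, one_mul] at h
  intro i
  induction i using Nat.strong_induction_on with
  | _ i ih =>
    intro hi
    by_cases hin : i < n
    · exact int_mul_mem n θ L _ (pow_mem n θ i hin)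
    · obtain ⟨j, rfl⟩ : ∃ j, i = n + j := ⟨i - n, by omega⟩
      have hj : j < n := by omega
      have e : (L : K) * θ ^ (n + j) =
          - (∑ l ∈ Finset.range n, ((pA a).coeff l : K) * ((L : K) * θ ^ (l + j))) -
            (S : K) * θ ^ j := by
        have h1 : ((L : K) * (∑ x ∈ Finset.range n, ((pA a).coeff x : K) * θ ^ x + θ ^ n) + S) *
            θ ^ j = 0 := by rw [h, zero_mul]
        have h2 : (∑ l ∈ Finset.range n, ((pA a).coeff l : K) * ((L : K) * θ ^ (l + j))) =
            (L : K) * (∑ x ∈ Finset.range n, ((pA a).coeff x : K) * θ ^ x) * θ ^ j := by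
          rw [Finset.mul_sum, Finset.sum_mul]
          refine Finset.sum_congr rfl fun l _ => ?_
          rw [pow_add]
          ring
        rw [h2, pow_add]
        linear_combination h1
      rw [e]
      refine Submodule.sub_mem _ (Submodule.neg_mem _ (Submodule.sum_mem _ fun l hl => ?_))
        (int_mul_mem n θ S _ (pow_mem n θ j hj))
      rw [Finset.mem_range] at hl
      exact int_mul_mem n θ _ _ (ih (l + j) (by omega) (by omega))

end INT

/-- CN-INT -/
theorem t_INT : S_INT := by
  intro K _ _ n a L S θ hn h k hk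
  refine isIntegral_of_smul_mem_submodule (M := K) (INT.NN n θ) ?_ ?_ _ ?_
  · intro h0
    have h1 : (θ ^ 0 : K) ∈ INT.NN n θ := INT.pow_mem n θ 0 (by omega)
    rw [h0, Submodule.mem_bot, pow_zero] at h1
    exact one_ne_zero h1
  · exact Submodule.fg_span ((Finset.range n).finite_toSet.image _)
  · intro x hx
    induction hx using Submodule.span_induction with
    | mem x hx =>
      obtain ⟨j, hj, rfl⟩ := hx
      have hj' : j < n := by simpa using hj
      have e : ((L : K) * θ ^ k) • θ ^ j = (L : K) * θ ^ (k + j) := by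
        rw [smul_eq_mul, pow_add, mul_assoc]
      rw [e]
      exact INT.claim n a L S θ hn h (k + j) (by omega)
    | zero => rw [smul_zero]; exact Submodule.zero_mem _
    | add x y _ _ h1 h2 => rw [smul_add]; exact Submodule.add_mem _ h1 h2
    | smul z x _ h1 =>
      rw [smul_comm]
      exact Submodule.smul_mem _ _ h1

end Pool.Agent.NH14.CN
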