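import Pool.Agent.NH14.CN.Stm2
import Pool.Agent.Cov.PNT

/-! CN-PAP: many primes congruent to one modulo `ℓ`. -/

set_option autoImplicit false

open Filter Topology

namespace Pool.Agent.NH14.CN

namespace PapAux

open ArithmeticFunction

theorem Icc_eq (Y : ℕ) : Finset.Icc 1 Y = Finset.Ioc 0 Y := by
  ext k
  simp only [Finset.mem_Icc, Finset.mem_Ioc]
  omega

theorem key (ℓ : ℕ) [NeZero ℓ] (Y : ℕ) (hY : 1 ≤ Y) :
    ∑ k ∈ Finset.Icc 1 Y, vonMangoldt.residueClass (1 : ZMod ℓ) k ≤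
      ((((Finset.range (Y + 1)).filter (fun r => r.Prime ∧ r % ℓ = 1 % ℓ)).card : ℕ) : ℝ) *
        Real.log Y + 2 * Real.sqrt Y * Real.log Y := by
  classical
  have h1 : ∑ k ∈ Finset.Icc 1 Y, vonMangoldt.residueClass (1 : ZMod ℓ) k ≤
      ∑ k ∈ Finset.Icc 1 Y, ((if k.Prime ∧ k % ℓ = 1 % ℓ then Real.log k else 0) +
        (vonMangoldt k - if k.Prime then Real.log k else 0)) := by
    refine Finset.sum_le_sum fun k _ => ?_
    by_cases hk : k.Prime
    · rw [if_pos hk, vonMangoldt_apply_prime hk, sub_self, add_zero]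
      by_cases hc : (k : ZMod ℓ) = 1
      · have hc' : k % ℓ = 1 % ℓ := by
          rw [← Nat.cast_one (R := ZMod ℓ), ZMod.natCast_eq_natCast_iff'] at hc
          exact hc
        rw [if_pos ⟨hk, hc'⟩]
        refine (vonMangoldt.residueClass_le _ k).trans (le_of_eq ?_)
        exact vonMangoldt_apply_prime hk
      · have : vonMangoldt.residueClass (1 : ZMod ℓ) k = 0 := by
          unfold vonMangoldt.residueClass
          rw [Set.indicator_of_notMem]
          exact hc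
        rw [this]
        split_ifs
        · exact Real.log_natCast_nonneg k
        · exact le_rfl
    · rw [if_neg hk, sub_zero, if_neg (fun h => hk h.1), zero_add]
      exact vonMangoldt.residueClass_le _ k
  rw [Finset.sum_add_distrib, Finset.sum_sub_distrib] at h1
  have h2 : ∑ k ∈ Finset.Icc 1 Y, (if k.Prime ∧ k % ℓ = 1 % ℓ then Real.log k else 0) ≤
      ((((Finset.range (Y + 1)).filter (fun r => r.Prime ∧ r % ℓ = 1 % ℓ)).card : ℕ) : ℝ) *
        Real.log Y := by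
    rw [← Finset.sum_filter, ← nsmul_eq_mul]
    refine (Finset.sum_le_card_nsmul _ _ (Real.log Y) fun k hk => ?_).trans ?_
    · rw [Finset.mem_filter, Finset.mem_Icc] at hk
      exact Real.log_le_log (by exact_mod_cast hk.1.1) (by exact_mod_cast hk.1.2)
    · refine nsmul_le_nsmul_left (Real.log_natCast_nonneg Y) (Finset.card_le_card ?_)
      intro k hk
      rw [Finset.mem_filter, Finset.mem_Icc] at hk
      rw [Finset.mem_filter, Finset.mem_range]
      exact ⟨by omega, hk.2⟩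
  have h3 : ∑ k ∈ Finset.Icc 1 Y, vonMangoldt k = Chebyshev.psi (Y : ℝ) := by
    rw [Chebyshev.psi, Nat.floor_natCast, Icc_eq]
  have h4 : ∑ k ∈ Finset.Icc 1 Y, (if k.Prime then Real.log k else 0) =
      Chebyshev.theta (Y : ℝ) := by
    rw [Chebyshev.theta, Nat.floor_natCast, Icc_eq, Finset.sum_filter]
  have h5 := Chebyshev.abs_psi_sub_theta_le_sqrt_mul_log (x := (Y : ℝ)) (by exact_mod_cast hY)
  have h6 := le_abs_self (Chebyshev.psi (Y : ℝ) - Chebyshev.theta (Y : ℝ))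
  rw [h3, h4] at h1
  linarith

end PapAux

theorem t_PAP : S_PAP := by
  intro ℓ hℓ ε hε
  haveI : NeZero ℓ := ⟨by omega⟩
  set c : ℝ := ((ℓ.totient : ℝ)⁻¹) with hc
  have hc0 : 0 < c := inv_pos.2 (by exact_mod_cast Nat.totient_pos.2 (by omega))
  have h1 := Pool.Agent.Cov.PNT.pnt_residueClass (q := ℓ) (a := 1) isUnit_one
  have h2 : ∀ᶠ x : ℝ in atTop, c / 2 < (∑ k ∈ Finset.Icc 1 ⌊x⌋₊,
      ArithmeticFunction.vonMangoldt.residueClass (1 : ZMod ℓ) k) / x :=
    h1.eventually (lt_mem_nhds (by linarith))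
  have h3 : ∀ᶠ x : ℝ in atTop, ‖Real.log x‖ ≤ c / 4 * ‖x ^ ε‖ :=
    (isLittleO_log_rpow_atTop hε).bound (by positivity)
  have h4 : ∀ᶠ x : ℝ in atTop, ‖Real.log x‖ ≤ c / 8 * ‖x ^ (1 / 2 : ℝ)‖ :=
    (isLittleO_log_rpow_atTop (by norm_num : (0 : ℝ) < 1 / 2)).bound (by positivity)
  have h5 : ∀ᶠ Y : ℕ in atTop, (Y : ℝ) ^ (1 - ε) ≤
      ((((Finset.range (Y + 1)).filter (fun r => r.Prime ∧ r % ℓ = 1 % ℓ)).card : ℕ) : ℝ) := by
    filter_upwards [tendsto_natCast_atTop_atTop.eventually h2,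
      tendsto_natCast_atTop_atTop.eventually h3, tendsto_natCast_atTop_atTop.eventually h4,
      eventually_ge_atTop 2] with Y a2 a3 a4 a5
    have hY0 : (0 : ℝ) < Y := by exact_mod_cast (by omega : 0 < Y)
    have hY1 : (1 : ℝ) < Y := by exact_mod_cast (by omega : 1 < Y)
    have hlog : 0 < Real.log Y := Real.log_pos hY1
    rw [Nat.floor_natCast, lt_div_iff₀ hY0] at a2
    rw [Real.norm_of_nonneg hlog.le, Real.norm_of_nonneg (Real.rpow_nonneg hY0.le _)] at a3 a4
    have k := PapAux.key ℓ Y (by omega)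
    have e1 : (Y : ℝ) ^ (1 - ε) * Real.log Y ≤ c / 4 * Y := by
      calc (Y : ℝ) ^ (1 - ε) * Real.log Y ≤ (Y : ℝ) ^ (1 - ε) * (c / 4 * (Y : ℝ) ^ ε) := by
            gcongr
        _ = c / 4 * ((Y : ℝ) ^ (1 - ε) * (Y : ℝ) ^ ε) := by ring
        _ = c / 4 * Y := by
            rw [← Real.rpow_add hY0, sub_add_cancel, Real.rpow_one]
    have e2 : 2 * Real.sqrt Y * Real.log Y ≤ c / 4 * Y := by
      calc 2 * Real.sqrt Y * Real.log Y ≤ 2 * Real.sqrt Y * (c / 8 * (Y : ℝ) ^ (1 / 2 : ℝ)) := by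
            gcongr
        _ = c / 4 * (Real.sqrt Y * Real.sqrt Y) := by
            rw [← Real.sqrt_eq_rpow]
            ring
        _ = c / 4 * Y := by rw [Real.mul_self_sqrt hY0.le]
    have e3 : (Y : ℝ) ^ (1 - ε) * Real.log Y ≤
        ((((Finset.range (Y + 1)).filter (fun r => r.Prime ∧ r % ℓ = 1 % ℓ)).card : ℕ) : ℝ) *
          Real.log Y := by linarith
    exact le_of_mul_le_mul_right e3 hlog
  exact eventually_atTop.1 h5

end Pool.Agent.NH14.CN
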