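import Pool.Agent.NH14.CN.Stm

/-!
# Project CN: a bound for the roots
-/

set_option autoImplicit false

namespace Pool.Agent.NH14.CN

theorem t_ROOT : S_ROOT := by
  intro n a V hn
  refine ⟨∑ i, |(a i : ℝ)| + |V| + 1, by positivity, fun z v hv0 hvV h => ?_⟩
  by_contra hz
  rw [not_le] at hz
  have h1 : ∀ i : Fin n, |V| + 1 ≤ ‖z - (a i : ℂ)‖ := by
    intro i
    have h2 : ‖z‖ ≤ ‖z - (a i : ℂ)‖ + ‖(a i : ℂ)‖ := by
      have := norm_add_le (z - (a i : ℂ)) (a i : ℂ)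
      rwa [sub_add_cancel] at this
    have h3 : ‖(a i : ℂ)‖ = |(a i : ℝ)| := by
      rw [Complex.norm_intCast]
    have h4 : |(a i : ℝ)| ≤ ∑ i, |(a i : ℝ)| :=
      Finset.single_le_sum (f := fun i => |(a i : ℝ)|) (fun i _ => abs_nonneg _)
        (Finset.mem_univ i)
    linarith
  have h5 : (|V| + 1) ^ n ≤ ‖∏ i, (z - (a i : ℂ))‖ := by
    rw [norm_prod]
    calc (|V| + 1) ^ n = ∏ _i : Fin n, (|V| + 1) := by
          rw [Finset.prod_const, Finset.card_univ, Fintype.card_fin]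
      _ ≤ ∏ i, ‖z - (a i : ℂ)‖ :=
          Finset.prod_le_prod (fun i _ => by positivity) fun i _ => h1 i
  have h6 : |V| + 1 ≤ (|V| + 1) ^ n :=
    le_self_pow₀ (by linarith [abs_nonneg V]) (by omega)
  have h7 : ‖∏ i, (z - (a i : ℂ))‖ = v := by
    rw [h, norm_neg, Complex.norm_real, Real.norm_eq_abs, abs_of_nonneg hv0]
  have h8 := le_abs_self V
  linarith

end Pool.Agent.NH14.CN
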