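import Pool.Agent.NH14.CN.Stm

/-!
# CN-ST: choice of `s` and `t` of size `O(q)`
-/

set_option autoImplicit false

namespace Pool.Agent.NH14.CN

theorem st_unit (M m : ℕ) (h : M ∣ m) (hm : m ≠ 0) (s₀ : ℤ) (hs : IsCoprime s₀ (M : ℤ)) :
    ∃ s₁ : ℤ, (M : ℤ) ∣ s₁ - s₀ ∧ IsCoprime s₁ (m : ℤ) := by
  have : NeZero m := ⟨hm⟩
  obtain ⟨U, hU⟩ := ZMod.unitsMap_surjective h (ZMod.unitOfIsCoprime s₀ hs)
  refine ⟨((U : ZMod m).val : ℤ), ?_, ?_⟩
  · have h1 := congrArg (fun u : (ZMod M)ˣ => (u : ZMod M)) hU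
    simp only [ZMod.coe_unitOfIsCoprime, ZMod.unitsMap_def, Units.coe_map] at h1
    have h2 : (((U : ZMod m).val : ℤ) : ZMod M) = (s₀ : ZMod M) := by
      rw [← h1]
      simp
    have h3 := (ZMod.intCast_eq_intCast_iff_dvd_sub _ _ _).1 h2.symm
    exact h3
  · exact Nat.isCoprime_iff_coprime.2 (ZMod.val_coe_unit_coprime U)

theorem t_ST : S_ST := by
  intro M s₀ t₀ x y hM hs₀ hx hxy
  obtain ⟨M, rfl⟩ : ∃ M' : ℕ, M = (M' : ℤ) := ⟨M.toNat, by omega⟩
  have hM' : 0 < M := by exact_mod_cast hM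
  set g : ℕ := M + 1 with hg
  set al : ℝ := 1 / (y - 1) with hal
  set be : ℝ := 1 / ((x + y) / 2 - 1) with hbe
  have hy1 : 0 < y - 1 := by linarith
  have hx1 : 0 < (x + y) / 2 - 1 := by linarith
  have hal0 : 0 < al := by positivity
  have hab : al < be := one_div_lt_one_div_of_lt hx1 (by linarith)
  have hg1 : (1 : ℝ) < (g : ℝ) := by
    rw [hg]
    push_cast
    have : (0 : ℝ) < (M : ℝ) := by exact_mod_cast hM'
    linarith
  obtain ⟨e, he⟩ := pow_unbounded_of_one_lt ((M : ℝ) * g / (be - al)) hg1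
  have he' : (M : ℝ) * g < (g : ℝ) ^ e * (be - al) := by
    rwa [div_lt_iff₀ (by linarith)] at he
  obtain ⟨C, hC⟩ := exists_nat_gt (((g : ℝ) ^ e * M) * (be + 1) + M)
  have hgp : 0 < g := by omega
  have hge : 0 < g ^ e := pow_pos hgp e
  have hgeR : (0 : ℝ) < (g : ℝ) ^ e := by positivity
  have hMR : (0 : ℝ) < (M : ℝ) := by exact_mod_cast hM'
  have hbe0 : 0 < be := hal0.trans hab
  have hC1 : (((g ^ e * M : ℕ) : ℝ)) < C := by
    push_cast
    have : 0 < (g : ℝ) ^ e * M * be := by positivity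
    nlinarith
  have hC1' : g ^ e * M < C := by exact_mod_cast hC1
  have hC2 : (g : ℝ) ^ e * M * (be + 1) ≤ C := by linarith
  refine ⟨C, fun q hq hCq => ?_⟩
  have hq0 : 0 < q := hq.pos
  have hMq : M < q := by
    have : M ≤ g ^ e * M := Nat.le_mul_of_pos_left M hge
    omega
  have hcop : IsCoprime (q : ℤ) (M : ℤ) := by
    rw [Nat.isCoprime_iff_coprime]
    exact (Nat.Prime.coprime_iff_not_dvd hq).2 fun h => by
      have := Nat.le_of_dvd hM' h
      omega
  obtain ⟨u, u', huu⟩ := hcop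
  set w : ℤ := ((t₀ - s₀) * u - 1) % (M : ℤ) + 1 with hw
  have hw1 : 1 ≤ w := by
    have := Int.emod_nonneg ((t₀ - s₀) * u - 1) (b := (M : ℤ)) (by omega)
    omega
  have hw2 : w ≤ M := by
    have := Int.emod_lt_of_pos ((t₀ - s₀) * u - 1) (b := (M : ℤ)) (by omega)
    omega
  have hwM : (M : ℤ) ∣ q * w - (t₀ - s₀) := by
    have h1 : (M : ℤ) ∣ w - (t₀ - s₀) * u := by
      have h2 := Int.emod_add_mul_ediv ((t₀ - s₀) * u - 1) (M : ℤ)
      refine ⟨-(((t₀ - s₀) * u - 1) / (M : ℤ)), ?_⟩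
      rw [hw]
      linarith
    obtain ⟨k, hk⟩ := h1
    refine ⟨q * k - (t₀ - s₀) * u', ?_⟩
    have e1 : w = (t₀ - s₀) * u + M * k := by linarith
    rw [e1]
    linear_combination (t₀ - s₀) * huu
  obtain ⟨w, hwn⟩ : ∃ w' : ℕ, w = (w' : ℤ) := ⟨w.toNat, by omega⟩
  rw [hwn] at hw1 hw2 hwM

  have hw1' : 0 < w := by exact_mod_cast hw1
  have hw2' : w ≤ M := by exact_mod_cast hw2
  set m : ℕ := M * (g * w * q) with hm
  have hm0 : m ≠ 0 := by positivity
  obtain ⟨s₁, hs1, hs2⟩ := st_unit M m (Dvd.intro _ rfl) hm0 s₀ hs₀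
  set v : ℕ := g ^ e * w with hv
  have hv0 : 0 < v := by positivity
  have hvq : v < q := by
    have : g ^ e * w ≤ g ^ e * M := Nat.mul_le_mul_left _ hw2'
    omega
  have hmR : (0 : ℝ) < (m : ℝ) := by positivity
  set k : ℤ := ⌊((q : ℝ) * v * al - s₁) / m⌋ + 1 with hk
  set s : ℤ := s₁ + m * k with hs
  have hsR : (s : ℝ) = s₁ + m * k := by rw [hs]; push_cast; ring
  have hlow : (q : ℝ) * v * al < s := by
    have h1 := Int.lt_floor_add_one (((q : ℝ) * v * al - s₁) / m)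
    rw [div_lt_iff₀ hmR] at h1
    rw [hsR, hk]
    push_cast
    linarith
  have hup : (s : ℝ) < (q : ℝ) * v * be := by
    have h1 := Int.floor_le (((q : ℝ) * v * al - s₁) / m)
    rw [le_div_iff₀ hmR] at h1
    have h2 : (m : ℝ) < (q : ℝ) * v * (be - al) := by
      rw [hm, hv]
      push_cast
      have h3 : (0 : ℝ) < (w : ℝ) * q := by positivity
      have h4 := mul_lt_mul_of_pos_right he' h3
      have h5 : (M : ℝ) * ((g : ℝ) * w * q) = (M : ℝ) * g * (w * q) := by ring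
      rw [h5]
      refine h4.trans_le (le_of_eq (by ring))
    rw [hsR, hk]
    push_cast
    linarith
  have hqv : (0 : ℝ) < (q : ℝ) * v := by positivity
  have hs0 : (0 : ℝ) < (s : ℝ) := lt_trans (by positivity) hlow
  have hsm : IsCoprime s (m : ℤ) := by
    rw [hs]
    exact (IsCoprime.add_mul_left_left_iff).2 hs2
  have hmz : (m : ℤ) = (M : ℤ) * ((g : ℤ) * w * q) := by rw [hm]; push_cast; ring
  rw [hmz] at hsm
  have hc1 : IsCoprime s ((g : ℤ) * w * q) := hsm.of_mul_right_right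
  have hcq : IsCoprime s (q : ℤ) := hc1.of_mul_right_right
  have hcw : IsCoprime s (w : ℤ) := hc1.of_mul_right_left.of_mul_right_right
  have hcg : IsCoprime s (g : ℤ) := hc1.of_mul_right_left.of_mul_right_left
  have hcqv : IsCoprime s ((q : ℤ) * v) := by
    rw [hv]
    push_cast
    exact hcq.mul_right ((hcg.pow_right).mul_right hcw)
  have hst : (M : ℤ) ∣ s - s₀ := by
    have e1 : s - s₀ = (s₁ - s₀) + M * ((g : ℤ) * w * q * k) := by rw [hs, hmz]; ring
    rw [e1]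
    exact dvd_add hs1 (Dvd.intro _ rfl)
  refine ⟨s, s + q * v, hst, ?_, by exact_mod_cast hs0, ?_, ?_, ?_, ?_, ?_, ?_, ?_⟩
  · have h1 : (M : ℤ) ∣ (g : ℤ) ^ e - 1 := by
      have h2 : (g : ℤ) - 1 ∣ (g : ℤ) ^ e - 1 := sub_one_dvd_pow_sub_one (g : ℤ) e
      have h3 : (g : ℤ) - 1 = M := by rw [hg]; push_cast; ring
      rwa [h3] at h2
    have e1 : s + q * v - t₀ = (s - s₀) + (q * w - (t₀ - s₀)) + ((g : ℤ) ^ e - 1) * (q * w) := by
      rw [hv]
      push_cast
      ring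
    rw [e1]
    exact dvd_add (dvd_add hst hwM) (h1.mul_right _)
  · have := (IsCoprime.add_mul_left_right_iff (x := s) (y := (q : ℤ) * v) (z := 1)).2 hcqv
    rw [mul_one, add_comm] at this
    exact this
  · push_cast
    have h1 : (s : ℝ) * ((x + y) / 2 - 1) < (q : ℝ) * v := by
      have h2 := mul_lt_mul_of_pos_right hup hx1
      have h3 : (q : ℝ) * v * be * ((x + y) / 2 - 1) = (q : ℝ) * v := by
        rw [hbe, mul_assoc, one_div_mul_cancel hx1.ne', mul_one]
      linarith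
    nlinarith
  · push_cast
    have h2 := mul_lt_mul_of_pos_right hlow hy1
    have h3 : (q : ℝ) * v * al * (y - 1) = (q : ℝ) * v := by
      rw [hal, mul_assoc, one_div_mul_cancel hy1.ne', mul_one]
    linarith
  · push_cast
    have h1 : (v : ℝ) ≤ (g : ℝ) ^ e * M := by
      rw [hv]
      push_cast
      have : (w : ℝ) ≤ M := by exact_mod_cast hw2'
      exact mul_le_mul_of_nonneg_left this hgeR.le
    have h2 : (v : ℝ) * (be + 1) ≤ C := (mul_le_mul_of_nonneg_right h1 (by linarith)).trans hC2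
    have h3 : (q : ℝ) * ((v : ℝ) * (be + 1)) ≤ q * C := mul_le_mul_of_nonneg_left h2 (by positivity)
    linarith
  · exact ⟨v, by ring⟩
  · rintro ⟨c, hc⟩
    have hqz : (q : ℤ) ≠ 0 := by exact_mod_cast hq0.ne'
    have h1 : (v : ℤ) = q * c := by
      have : (q : ℤ) * v = q * (q * c) := by linear_combination hc
      exact mul_left_cancel₀ hqz this
    have h2 : q ∣ v := by exact_mod_cast Dvd.intro c h1.symm
    have := Nat.le_of_dvd hv0 h2
    omega
  · intro h
    have h1 := hcq.isUnit_of_dvd' h dvd_rfl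
    have h2 : Prime (q : ℤ) := Nat.prime_iff_prime_int.1 hq
    exact h2.not_isUnit h1

end Pool.Agent.NH14.CN
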