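import Pool.Agent.NH14.CN.Stm2
import Pool.Agent.NH14.CN.ST

/-!
# CN-ST2: choice of `s` and `t` of size `O(q)` for two primes `q` and `r`
-/

set_option autoImplicit false

namespace Pool.Agent.NH14.CN

/-- first order expansion -/
theorem st2_taylor {p : ℤ} (a h : ℤ) (m : ℕ) (hp : p ∣ h) :
    p ^ 2 ∣ (a + h) ^ m - a ^ (m - 1) * h * m - a ^ m :=
  (pow_dvd_pow_of_dvd hp 2).trans (sq_dvd_add_pow_sub_sub h a m)

theorem st2_not_dvd {p n : ℕ} (hn : 0 < n) (h : n < p) : ¬ (p : ℤ) ∣ (n : ℤ) := by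
  intro h1
  have := Nat.le_of_dvd hn (Int.natCast_dvd_natCast.1 h1)
  omega

/-- exactness at `q` -/
theorem st2_exact {q m v : ℕ} (hq : q.Prime) (hm : 0 < m) (hv : 0 < v) (hmq : m < q) (hvq : v < q)
    {s : ℤ} (hs : ¬ (q : ℤ) ∣ s) : Exact q m s (s + q * v) := by
  have hp : Prime (q : ℤ) := Nat.prime_iff_prime_int.1 hq
  have hT := st2_taylor (p := (q : ℤ)) s ((q : ℤ) * v) m (Dvd.intro _ rfl)
  refine ⟨?_, ?_, hs⟩
  · have h2 := sub_dvd_pow_sub_pow (s + (q : ℤ) * v) s m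
    have h1 : (q : ℤ) ∣ s + q * v - s := ⟨v, by ring⟩
    exact h1.trans h2
  · intro h
    have h1 : (q : ℤ) ^ 2 ∣ s ^ (m - 1) * (q * v) * m := by
      have h2 := dvd_sub h hT
      have e : (s + (q : ℤ) * v) ^ m - s ^ m -
          ((s + (q : ℤ) * v) ^ m - s ^ (m - 1) * (q * v) * m - s ^ m) =
          s ^ (m - 1) * (q * v) * m := by ring
      rwa [e] at h2
    have h3 : (q : ℤ) ∣ s ^ (m - 1) * v * m := by
      have e : s ^ (m - 1) * ((q : ℤ) * v) * m = q * (s ^ (m - 1) * v * m) := by ring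
      rw [e, sq] at h1
      exact (mul_dvd_mul_iff_left hp.ne_zero).1 h1
    rcases hp.dvd_or_dvd h3 with h4 | h4
    · rcases hp.dvd_or_dvd h4 with h5 | h5
      · exact hs (hp.dvd_of_dvd_pow h5)
      · exact st2_not_dvd hv hvq h5
    · exact st2_not_dvd hm hmq h4

/-- at most one of the `s` is bad for `r` -/
theorem st2_r {r m k M v : ℕ} (hr : r.Prime) (hm : 0 < m) (hk : 0 < k) (hkr : k < r) (hM : 0 < M)
    (hMr : M < r) (hv : 0 < v) (hvr : v < r) (hmr : m < r) {ζ s T : ℤ}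
    (hζ : (r : ℤ) ∣ ζ ^ m - 1) (hζ1 : ¬ (r : ℤ) ∣ ζ - 1) (hs : ¬ (r : ℤ) ∣ s)
    (ht : (r : ℤ) ∣ (s + T) - ζ * s) (h1 : (r : ℤ) ^ 2 ∣ (s + T) ^ m - s ^ m)
    (h2 : (r : ℤ) ^ 2 ∣ (s + k * (M * v * r) + T) ^ m - (s + k * (M * v * r)) ^ m) : False := by
  have hp : Prime (r : ℤ) := Nat.prime_iff_prime_int.1 hr
  obtain ⟨h, hh⟩ : ∃ h : ℤ, h = k * (M * v * r) := ⟨_, rfl⟩
  rw [← hh] at h2
  have hrh : (r : ℤ) ∣ h := ⟨k * (M * v), by rw [hh]; ring⟩
  have a1 := st2_taylor (p := (r : ℤ)) (s + T) h m hrh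
  have a2 := st2_taylor (p := (r : ℤ)) s h m hrh
  have e0 : s + h + T = s + T + h := by ring
  rw [e0] at h2
  have a3 : (r : ℤ) ^ 2 ∣ h * (m * ((s + T) ^ (m - 1) - s ^ (m - 1))) := by
    have h3 := dvd_add (dvd_sub (dvd_sub h2 h1) a1) a2
    have e : (s + T + h) ^ m - (s + h) ^ m - ((s + T) ^ m - s ^ m) -
        ((s + T + h) ^ m - (s + T) ^ (m - 1) * h * m - (s + T) ^ m) +
        ((s + h) ^ m - s ^ (m - 1) * h * m - s ^ m) =
        h * (m * ((s + T) ^ (m - 1) - s ^ (m - 1))) := by ring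
    rwa [e] at h3
  have a4 : (r : ℤ) ∣ (k * (M * v)) * (m * ((s + T) ^ (m - 1) - s ^ (m - 1))) := by
    have e : h * (m * ((s + T) ^ (m - 1) - s ^ (m - 1))) =
        r * ((k * (M * v)) * (m * ((s + T) ^ (m - 1) - s ^ (m - 1)))) := by rw [hh]; ring
    rw [e, sq] at a3
    exact (mul_dvd_mul_iff_left hp.ne_zero).1 a3
  have a5 : (r : ℤ) ∣ (s + T) ^ (m - 1) - s ^ (m - 1) := by
    rcases hp.dvd_or_dvd a4 with h3 | h3
    · exfalso
      rcases hp.dvd_or_dvd h3 with h4 | h4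
      · exact st2_not_dvd hk hkr h4
      · rcases hp.dvd_or_dvd h4 with h5 | h5
        · exact st2_not_dvd hM hMr h5
        · exact st2_not_dvd hv hvr h5
    · rcases hp.dvd_or_dvd h3 with h4 | h4
      · exact absurd h4 (st2_not_dvd hm hmr)
      · exact h4
  have a6 : (r : ℤ) ∣ (s + T) ^ (m - 1) - (ζ * s) ^ (m - 1) :=
    ht.trans (sub_dvd_pow_sub_pow _ _ _)
  have a7 : (r : ℤ) ∣ s ^ (m - 1) * (ζ ^ (m - 1) - 1) := by
    have h3 := dvd_sub a5 a6
    have e : (s + T) ^ (m - 1) - s ^ (m - 1) - ((s + T) ^ (m - 1) - (ζ * s) ^ (m - 1)) =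
        s ^ (m - 1) * (ζ ^ (m - 1) - 1) := by rw [mul_pow]; ring
    rwa [e] at h3
  have a8 : (r : ℤ) ∣ ζ ^ (m - 1) - 1 := by
    rcases hp.dvd_or_dvd a7 with h3 | h3
    · exact absurd (hp.dvd_of_dvd_pow h3) hs
    · exact h3
  apply hζ1
  have h3 := dvd_sub hζ (a8.mul_left ζ)
  have e : ζ ^ m - 1 - ζ * (ζ ^ (m - 1) - 1) = ζ - 1 := by
    obtain ⟨m', rfl⟩ : ∃ m', m = m' + 1 := ⟨m - 1, by omega⟩
    simp only [Nat.add_sub_cancel]
    ring
  rwa [e] at h3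

theorem st2_q {q k M v r : ℕ} (hq : q.Prime) (hk : 0 < k) (hkq : k < q) (hM : 0 < M) (hMq : M < q)
    (hv : 0 < v) (hvq : v < q) (hr : 0 < r) (hrq : r < q) :
    ¬ (q : ℤ) ∣ (k : ℤ) * (M * v * r) := by
  have hp : Prime (q : ℤ) := Nat.prime_iff_prime_int.1 hq
  intro h
  rcases hp.dvd_or_dvd h with h1 | h1
  · exact st2_not_dvd hk hkq h1
  · rcases hp.dvd_or_dvd h1 with h2 | h2
    · rcases hp.dvd_or_dvd h2 with h3 | h3
      · exact st2_not_dvd hM hMq h3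
      · exact st2_not_dvd hv hvq h3
    · exact st2_not_dvd hr hrq h2

theorem st2_v {M q : ℕ} (hM' : 0 < M) (hcop : IsCoprime (q : ℤ) (M : ℤ)) (d : ℤ) :
    ∃ v : ℕ, 0 < v ∧ v ≤ M ∧ (M : ℤ) ∣ q * v - d := by
  obtain ⟨u, u', huu⟩ := hcop
  set w : ℤ := (d * u - 1) % (M : ℤ) + 1 with hw
  have hw1 : 1 ≤ w := by
    have := Int.emod_nonneg (d * u - 1) (b := (M : ℤ)) (by omega)
    omega
  have hw2 : w ≤ M := by
    have := Int.emod_lt_of_pos (d * u - 1) (b := (M : ℤ)) (by omega)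
    omega
  have hwM : (M : ℤ) ∣ q * w - d := by
    have h1 : (M : ℤ) ∣ w - d * u := by
      have h2 := Int.emod_add_mul_ediv (d * u - 1) (M : ℤ)
      refine ⟨-((d * u - 1) / (M : ℤ)), ?_⟩
      rw [hw]
      linarith
    obtain ⟨k, hk⟩ := h1
    refine ⟨q * k - d * u', ?_⟩
    have e1 : w = d * u + M * k := by linarith
    rw [e1]
    linear_combination d * huu
  obtain ⟨w, hwn⟩ : ∃ w' : ℕ, w = (w' : ℤ) := ⟨w.toNat, by omega⟩
  rw [hwn] at hw1 hw2 hwM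
  exact ⟨w, by exact_mod_cast hw1, by exact_mod_cast hw2, hwM⟩

theorem t_ST2 : S_ST2 := by
  intro M s₀ t₀ x y m hm hM hs₀ hx hxy
  obtain ⟨M, rfl⟩ : ∃ M' : ℕ, M = (M' : ℤ) := ⟨M.toNat, by omega⟩
  have hM' : 0 < M := by exact_mod_cast hM
  set al : ℝ := 1 / (y - 1) with hal
  set be : ℝ := 1 / ((x + y) / 2 - 1) with hbe
  have hy1 : 0 < y - 1 := by linarith
  have hx1 : 0 < (x + y) / 2 - 1 := by linarith
  have hal0 : 0 < al := by positivity
  have hab : al < be := one_div_lt_one_div_of_lt hx1 (by linarith)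
  have hbe0 : 0 < be := hal0.trans hab
  have hMR : (0 : ℝ) < (M : ℝ) := by exact_mod_cast hM'
  obtain ⟨C₁, hC₁⟩ := exists_nat_gt ((4 * (M : ℝ) * M) / (be - al))
  obtain ⟨C₂, hC₂⟩ := exists_nat_gt ((M : ℝ) * (be + 1))
  obtain ⟨C, hC⟩ : ∃ C : ℕ, C = C₁ + C₂ + M + m + 2 := ⟨_, rfl⟩
  have hCR : (C : ℝ) = C₁ + C₂ + M + m + 2 := by rw [hC]; push_cast; ring
  have hc1 : 4 * (M : ℝ) * M < C * (be - al) := by
    rw [div_lt_iff₀ (by linarith)] at hC₁
    refine hC₁.trans_le (mul_le_mul_of_nonneg_right ?_ (by linarith))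
    rw [hCR]
    have : (0 : ℝ) ≤ (C₂ : ℝ) := by positivity
    have : (0 : ℝ) ≤ (m : ℝ) := by positivity
    linarith
  have hc2 : (M : ℝ) * (be + 1) ≤ C := by
    refine hC₂.le.trans ?_
    rw [hCR]
    have : (0 : ℝ) ≤ (C₁ : ℝ) := by positivity
    have : (0 : ℝ) ≤ (m : ℝ) := by positivity
    linarith
  refine ⟨C, fun q r hq hr hCr hCq hz => ?_⟩
  obtain ⟨ζ, hζ, hζ1⟩ := hz
  have hrq : r < q := by
    have : r ≤ C * r := Nat.le_mul_of_pos_left r (by omega)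
    omega
  have hMr : M < r := by omega
  have hmr : m < r := by omega
  have hr0 : 0 < r := hr.pos
  have hpq : Prime (q : ℤ) := Nat.prime_iff_prime_int.1 hq
  have hpr : Prime (r : ℤ) := Nat.prime_iff_prime_int.1 hr
  have hcop : IsCoprime (q : ℤ) (M : ℤ) := by
    rw [Nat.isCoprime_iff_coprime]
    exact (Nat.Prime.coprime_iff_not_dvd hq).2 fun h => by
      have := Nat.le_of_dvd hM' h
      omega
  obtain ⟨v, hv0, hvM, hvd⟩ := st2_v hM' hcop (t₀ - s₀)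
  have hvr : v < r := by omega
  have hMv0 : M * v ≠ 0 := by positivity
  obtain ⟨s₁, hs1, hs2⟩ := st_unit M (M * v) (Dvd.intro _ rfl) hMv0 s₀ hs₀
  push_cast at hs2
  -- the class modulo `r`
  obtain ⟨ρ, hρ⟩ : ∃ ρ : ℤ, (r : ℤ) ∣ (ζ - 1) * ρ - q * v := by
    have h1 : IsCoprime (r : ℤ) (ζ - 1) := (hpr.coprime_iff_not_dvd).2 hζ1
    obtain ⟨a, b, hab⟩ := h1
    refine ⟨b * (q * v), ⟨-(a * (q * v)), ?_⟩⟩
    linear_combination (q * v : ℤ) * hab
  have hρ0 : ¬ (r : ℤ) ∣ ρ := by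
    intro h
    have h1 : (r : ℤ) ∣ q * v := by
      have h2 := dvd_sub (h.mul_left (ζ - 1)) hρ
      have e : (ζ - 1) * ρ - ((ζ - 1) * ρ - (q : ℤ) * v) = q * v := by ring
      rwa [e] at h2
    rcases hpr.dvd_or_dvd h1 with h2 | h2
    · have h3 := (Nat.prime_dvd_prime_iff_eq hr hq).1 (Int.natCast_dvd_natCast.1 h2)
      omega
    · exact st2_not_dvd hv0 hvr h2
  obtain ⟨s', hs'1, hs'2⟩ : ∃ s' : ℤ, (M * v : ℤ) ∣ s' - s₁ ∧ (r : ℤ) ∣ s' - ρ := by
    have h1 : IsCoprime ((M : ℤ) * v) (r : ℤ) := by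
      refine IsCoprime.symm ((hpr.coprime_iff_not_dvd).2 ?_)
      intro h
      rcases hpr.dvd_or_dvd h with h2 | h2
      · exact st2_not_dvd hM' hMr h2
      · exact st2_not_dvd hv0 hvr h2
    obtain ⟨a, b, hab⟩ := h1
    refine ⟨s₁ + (M * v) * (a * (ρ - s₁)), ⟨a * (ρ - s₁), by ring⟩, ⟨b * (s₁ - ρ), ?_⟩⟩
    linear_combination (ρ - s₁) * hab
  -- the three candidates
  obtain ⟨NN, hNN⟩ : ∃ NN : ℕ, NN = M * v * r := ⟨_, rfl⟩
  have hNN0 : 0 < NN := by rw [hNN]; positivity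
  have hNR : (0 : ℝ) < (NN : ℝ) := by exact_mod_cast hNN0
  have hqv : (0 : ℝ) < (q : ℝ) * v := by
    have : (0 : ℝ) < (q : ℝ) := by exact_mod_cast hq.pos
    have : (0 : ℝ) < (v : ℝ) := by exact_mod_cast hv0
    positivity
  have hlen : 4 * (NN : ℝ) < (q : ℝ) * v * (be - al) := by
    have h1 : (C : ℝ) * r < q := by exact_mod_cast hCq
    have hvR : (0 : ℝ) < (v : ℝ) := by exact_mod_cast hv0
    have hrR : (0 : ℝ) < (r : ℝ) := by exact_mod_cast hr0
    have h2 : (C : ℝ) * r * (v * (be - al)) < q * (v * (be - al)) :=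
      mul_lt_mul_of_pos_right h1 (by
        have : 0 < be - al := by linarith
        positivity)
    have h3 : 4 * (M : ℝ) * M * (r * v) < C * (be - al) * (r * v) :=
      mul_lt_mul_of_pos_right hc1 (by positivity)
    have h4 : (1 : ℝ) ≤ (M : ℝ) := by exact_mod_cast hM'
    have h5 : (NN : ℝ) = M * v * r := by rw [hNN]; push_cast; ring
    have h6 : (M : ℝ) * v * r ≤ (M : ℝ) * (M * v * r) := by
      have h7 : 0 ≤ (M : ℝ) * v * r := by positivity
      nlinarith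
    rw [h5]
    calc 4 * ((M : ℝ) * v * r) ≤ 4 * ((M : ℝ) * (M * v * r)) := by linarith
      _ = 4 * (M : ℝ) * M * (r * v) := by ring
      _ < C * (be - al) * (r * v) := h3
      _ = (C : ℝ) * r * (v * (be - al)) := by ring
      _ < q * (v * (be - al)) := h2
      _ = (q : ℝ) * v * (be - al) := by ring
  set k₀ : ℤ := ⌊((q : ℝ) * v * al - s') / NN⌋ + 1 with hk₀
  obtain ⟨S, hS⟩ : ∃ S : ℤ, S = s' + NN * k₀ := ⟨_, rfl⟩
  have hSR : (S : ℝ) = s' + NN * k₀ := by rw [hS]; push_cast; ring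
  have hlow : (q : ℝ) * v * al < S := by
    have h1 := Int.lt_floor_add_one (((q : ℝ) * v * al - s') / NN)
    rw [div_lt_iff₀ hNR] at h1
    rw [hSR, hk₀]
    push_cast
    linarith
  have hup : (S : ℝ) ≤ (q : ℝ) * v * al + NN := by
    have h1 := Int.floor_le (((q : ℝ) * v * al - s') / NN)
    rw [le_div_iff₀ hNR] at h1
    rw [hSR, hk₀]
    push_cast
    linarith
  have hgen : ∀ j : ℕ, j ≤ 2 → (M * v : ℤ) ∣ (S + j * (M * v * r)) - s₁ ∧
      (r : ℤ) ∣ (S + j * (M * v * r)) - ρ := by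
    intro j _
    obtain ⟨a, ha⟩ := hs'1
    obtain ⟨b, hb⟩ := hs'2
    have hNZ : (NN : ℤ) = M * v * r := by rw [hNN]; push_cast; ring
    refine ⟨⟨a + r * k₀ + j * r, ?_⟩, ⟨b + M * v * k₀ + j * (M * v), ?_⟩⟩
    · rw [hS, hNZ]
      linear_combination ha
    · rw [hS, hNZ]
      linear_combination hb
  have hrs : ∀ j : ℕ, j ≤ 2 → ¬ (r : ℤ) ∣ S + j * (M * v * r) := by
    intro j hj h
    have h1 := dvd_sub h (hgen j hj).2
    have e : S + (j : ℤ) * (M * v * r) - (S + j * (M * v * r) - ρ) = ρ := by ring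
    rw [e] at h1
    exact hρ0 h1
  have hrt : ∀ j : ℕ, j ≤ 2 → (r : ℤ) ∣ (S + j * (M * v * r) + q * v) - ζ * (S + j * (M * v * r)) := by
    intro j hj
    obtain ⟨b, hb⟩ := (hgen j hj).2
    obtain ⟨c, hc⟩ := hρ
    refine ⟨-(c + (ζ - 1) * b), ?_⟩
    linear_combination (-(ζ - 1)) * hb - hc
  have hA : ∀ i j : ℕ, i < j → j ≤ 2 → (q : ℤ) ∣ S + i * (M * v * r) →
      (q : ℤ) ∣ S + j * (M * v * r) → False := by
    intro i j hij hj h1 h2
    have h3 := dvd_sub h2 h1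
    obtain ⟨k, rfl⟩ : ∃ k, j = i + k := ⟨j - i, by omega⟩
    have e : S + ((i + k : ℕ) : ℤ) * (M * v * r) - (S + i * (M * v * r)) = k * (M * v * r) := by
      push_cast
      ring
    rw [e] at h3
    exact st2_q hq (by omega) (by omega) hM' (by omega) hv0 (by omega) hr0 hrq h3
  have hB : ∀ i j : ℕ, i < j → j ≤ 2 →
      (r : ℤ) ^ 2 ∣ (S + i * (M * v * r) + q * v) ^ m - (S + i * (M * v * r)) ^ m →
      (r : ℤ) ^ 2 ∣ (S + j * (M * v * r) + q * v) ^ m - (S + j * (M * v * r)) ^ m → False := by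
    intro i j hij hj h1 h2
    obtain ⟨k, rfl⟩ : ∃ k, j = i + k := ⟨j - i, by omega⟩
    have e : S + ((i + k : ℕ) : ℤ) * (M * v * r) = S + i * (M * v * r) + k * (M * v * r) := by
      push_cast
      ring
    rw [e] at h2
    exact st2_r hr (by omega) (by omega) (by omega) hM' hMr hv0 hvr hmr hζ hζ1
      (hrs i (by omega)) (hrt i (by omega)) h1 h2
  obtain ⟨j, hj, hjq, hjr⟩ : ∃ j : ℕ, j ≤ 2 ∧ ¬ (q : ℤ) ∣ S + j * (M * v * r) ∧
      ¬ (r : ℤ) ^ 2 ∣ (S + j * (M * v * r) + q * v) ^ m - (S + j * (M * v * r)) ^ m := by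
    by_contra hno
    have hno' : ∀ j : ℕ, j ≤ 2 → (q : ℤ) ∣ S + j * (M * v * r) ∨
        (r : ℤ) ^ 2 ∣ (S + j * (M * v * r) + q * v) ^ m - (S + j * (M * v * r)) ^ m := by
      intro j hj
      by_contra h
      rw [not_or] at h
      exact hno ⟨j, hj, h.1, h.2⟩
    rcases hno' 0 (by norm_num) with a | a <;> rcases hno' 1 (by norm_num) with b | b <;>
      rcases hno' 2 (by norm_num) with c | c
    · exact hA 0 1 (by norm_num) (by norm_num) a b
    · exact hA 0 1 (by norm_num) (by norm_num) a b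
    · exact hA 0 2 (by norm_num) (by norm_num) a c
    · exact hB 1 2 (by norm_num) (by norm_num) b c
    · exact hA 1 2 (by norm_num) (by norm_num) b c
    · exact hB 0 2 (by norm_num) (by norm_num) a c
    · exact hB 0 1 (by norm_num) (by norm_num) a b
    · exact hB 0 1 (by norm_num) (by norm_num) a b
  obtain ⟨s, hs⟩ : ∃ s : ℤ, s = S + j * (M * v * r) := ⟨_, rfl⟩
  have hg := hgen j hj
  have hrs' := hrs j hj
  have hrt' := hrt j hj
  rw [← hs] at hjq hjr hg hrs' hrt'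
  have hsR : (s : ℝ) = S + j * NN := by
    rw [hs, hNN]
    push_cast
    ring
  have hj2 : (j : ℝ) ≤ 2 := by exact_mod_cast hj
  have hj0 : (0 : ℝ) ≤ (j : ℝ) := by positivity
  have hjN : (j : ℝ) * NN ≤ 2 * NN := mul_le_mul_of_nonneg_right hj2 hNR.le
  have hjN0 : (0 : ℝ) ≤ (j : ℝ) * NN := by positivity
  have hlow' : (q : ℝ) * v * al < s := by rw [hsR]; linarith
  have hup' : (s : ℝ) < (q : ℝ) * v * be := by
    rw [hsR]
    have : (q : ℝ) * v * (be - al) = q * v * be - q * v * al := by ring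
    linarith
  have hs0 : (0 : ℝ) < (s : ℝ) := lt_trans (by positivity) hlow'
  have hsMv : IsCoprime s ((M : ℤ) * v) := by
    obtain ⟨a, ha⟩ := hg.1
    have e : s = s₁ + (M * v) * a := by linarith
    rw [e]
    exact (IsCoprime.add_mul_left_left_iff).2 hs2
  have hcv : IsCoprime s (v : ℤ) := hsMv.of_mul_right_right
  have hcq : IsCoprime s (q : ℤ) := ((hpq.coprime_iff_not_dvd).2 hjq).symm
  have hcqv : IsCoprime s ((q : ℤ) * v) := hcq.mul_right hcv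
  have hst : (M : ℤ) ∣ s - s₀ := by
    have h1 : (M : ℤ) ∣ s - s₁ := (Dvd.intro _ rfl).trans hg.1
    have h2 := dvd_add h1 hs1
    have e : s - s₁ + (s₁ - s₀) = s - s₀ := by ring
    rwa [e] at h2
  refine ⟨s, s + q * v, hst, ?_, by exact_mod_cast hs0, ?_, ?_, ?_, ?_, ?_, ?_⟩
  · have e1 : s + q * v - t₀ = (s - s₀) + (q * v - (t₀ - s₀)) := by ring
    rw [e1]
    exact dvd_add hst hvd
  · have := (IsCoprime.add_mul_left_right_iff (x := s) (y := (q : ℤ) * v) (z := 1)).2 hcqv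
    rw [mul_one, add_comm] at this
    exact this
  · push_cast
    have h1 : (s : ℝ) * ((x + y) / 2 - 1) < (q : ℝ) * v := by
      have h2 := mul_lt_mul_of_pos_right hup' hx1
      have h3 : (q : ℝ) * v * be * ((x + y) / 2 - 1) = (q : ℝ) * v := by
        rw [hbe, mul_assoc, one_div_mul_cancel hx1.ne', mul_one]
      linarith
    nlinarith
  · push_cast
    have h2 := mul_lt_mul_of_pos_right hlow' hy1
    have h3 : (q : ℝ) * v * al * (y - 1) = (q : ℝ) * v := by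
      rw [hal, mul_assoc, one_div_mul_cancel hy1.ne', mul_one]
    linarith
  · push_cast
    have h1 : (v : ℝ) ≤ (M : ℝ) := by exact_mod_cast hvM
    have h2 : (v : ℝ) * (be + 1) ≤ C := (mul_le_mul_of_nonneg_right h1 (by linarith)).trans hc2
    have hqR : (0 : ℝ) < (q : ℝ) := by exact_mod_cast hq.pos
    have h3 : (q : ℝ) * ((v : ℝ) * (be + 1)) ≤ q * C := mul_le_mul_of_nonneg_left h2 hqR.le
    linarith
  · exact st2_exact hq (by omega) hv0 (by omega) (by omega) hjq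
  · refine ⟨?_, hjr, hrs'⟩
    have h1 : (r : ℤ) ∣ (s + q * v) ^ m - (ζ * s) ^ m := hrt'.trans (sub_dvd_pow_sub_pow _ _ _)
    have h2 := dvd_add h1 (hζ.mul_right (s ^ m))
    have e : (s + (q : ℤ) * v) ^ m - (ζ * s) ^ m + (ζ ^ m - 1) * s ^ m =
        (s + (q : ℤ) * v) ^ m - s ^ m := by rw [mul_pow]; ring
    rwa [e] at h2

end Pool.Agent.NH14.CN
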