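import Pool.Agent.W289.CG.Test

/-!
# Project CN: many number fields of degree `n` whose class group has large `m`-rank, statements

The construction is the one of `Pool.Agent.W289.CG`; here `t` is of size `O(q)` for the ramified prime `q`.
-/

set_option autoImplicit false

namespace Pool.Agent.NH14.CN

open Polynomial NumberField
open Pool.Agent.W289.CG

/-- CN-ST: choice of `s` and `t` of size `O(q)` -/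
def S_ST : Prop :=
  ∀ (M s₀ t₀ : ℤ) (x y : ℝ), 0 < M → IsCoprime s₀ M → 1 ≤ x → x < y → ∃ C : ℕ,
    ∀ q : ℕ, q.Prime → C < q → ∃ s t : ℤ, M ∣ s - s₀ ∧ M ∣ t - t₀ ∧ 0 < s ∧ IsCoprime s t ∧
      x * s < t ∧ (t : ℝ) < y * s ∧ (t : ℝ) ≤ C * q ∧
      (q : ℤ) ∣ t - s ∧ ¬ (q : ℤ) ^ 2 ∣ t - s ∧ ¬ (q : ℤ) ∣ s

/-- the congruence conditions on `s` and `t` which do not involve the ramified prime -/
structure GoodR {n k : ℕ} (D : Dat n k) (m : ℕ) (q₁ : ℕ) (s t : ℤ) : Prop where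
  hq₁ : q₁.Prime
  hqm : 4 * m ∣ q₁ + 1
  hqm' : m < q₁
  hq4 : 4 < q₁
  hc₁ : ¬ (q₁ : ℤ) ∣ D.c
  hbad : ¬ (q₁ : ℤ) ∣ D.bad
  hs₁ : (q₁ : ℤ) ∣ s - 1
  ht₁ : (q₁ : ℤ) ∣ t
  hsc : D.c ∣ s - 1
  htc : D.c ∣ t - 1
  hsb : D.bad ∣ s - 1
  htb : D.bad ∣ t - 1
  tests : ∀ ℓ : ℕ, ℓ.Prime → ℓ ∣ m → ∀ h : Fin n ⊕ Fin k → ℕ, (∀ p, h p < ℓ) →
    (∃ p, ¬ ℓ ∣ h p) → ∃ q : ℕ, q.Prime ∧ PT D m (ℓ, h) q s t

/-- CN-GR: the congruence conditions can be satisfied -/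
def S_GR : Prop :=
  TaskWeil → TaskRoot → ∀ (n k : ℕ) (D : Dat n k) (m : ℕ), 1 ≤ n → 1 ≤ k → 2 ≤ m →
    ∃ (q₁ : ℕ) (M s₀ t₀ : ℤ), 0 < M ∧ IsCoprime s₀ M ∧
      ∀ s t : ℤ, M ∣ s - s₀ → M ∣ t - t₀ → GoodR D m q₁ s t

/-- CN-INT: the numbers `L θ ^ k`, `k < n`, are integral -/
def S_INT : Prop :=
  ∀ (K : Type) [Field K] [NumberField K] (n : ℕ) (a : Fin n → ℤ) (L S : ℤ) (θ : K), 1 ≤ n →
    (L : K) * ∏ i, (θ - (a i : K)) + (S : K) = 0 → ∀ k : ℕ, k < n → IsIntegral ℤ ((L : K) * θ ^ k)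

/-- CN-DIV: the discriminant of a basis of integers -/
def S_DIV : Prop :=
  ∀ (K : Type) [Field K] [NumberField K] (n : ℕ) (b : Module.Basis (Fin n) ℚ K),
    (∀ i, IsIntegral ℤ (b i)) → ((|discr K| : ℤ) : ℚ) ≤ |Algebra.discr ℚ b|

/-- CN-VDM: the discriminant of the basis `1, L θ, L θ ^ 2, ...` -/
def S_VDM : Prop :=
  ∀ (K : Type) [Field K] [NumberField K] (n : ℕ) (L : ℤ) (θ : K) (B : ℝ), Module.finrank ℚ K = n →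
    2 ≤ n → 0 < L → IntermediateField.adjoin ℚ {θ} = ⊤ → (∀ φ : K →+* ℂ, ‖φ θ‖ ≤ B) →
    ∃ b : Module.Basis (Fin n) ℚ K, (∀ i : Fin n, b i = if (i : ℕ) = 0 then 1 else (L : K) * θ ^ (i : ℕ)) ∧
      ((|Algebra.discr ℚ b| : ℚ) : ℝ) ≤ (L : ℝ) ^ (2 * (n - 1)) * (2 * B) ^ (n * (n - 1))

/-- CN-ROOT: a bound for the roots -/
def S_ROOT : Prop :=
  ∀ (n : ℕ) (a : Fin n → ℤ) (V : ℝ), 1 ≤ n → ∃ B : ℝ, 0 ≤ B ∧ ∀ (z : ℂ) (v : ℝ), 0 ≤ v → v ≤ V →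
    ∏ i, (z - (a i : ℂ)) = - (v : ℂ) → ‖z‖ ≤ B

/-- CN-CNT: counting the discriminants -/
def S_CNT : Prop :=
  ∀ (S : Set ℤ) (A C N : ℕ), 1 ≤ A →
    (∀ q : ℕ, q.Prime → N < q → ∃ d ∈ S, d ≠ 0 ∧ (q : ℤ) ∣ d ∧ |d| ≤ (C : ℤ) * (q : ℤ) ^ A) →
    ∀ δ : ℝ, δ < 1 / (A : ℝ) → ∃ X₀ : ℝ, ∀ X : ℝ, X₀ ≤ X →
      X ^ δ ≤ (({d : ℤ | d ∈ S ∧ ((|d| : ℤ) : ℝ) ≤ X}.ncard : ℕ) : ℝ)

/-- the fields for given data: one for every large prime `q`, ramified at `q`, with a small discriminant -/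
def S_Q : Prop :=
  ∀ (n k : ℕ) (D : Dat n k) (r₁ : ℕ) (v₁ v₂ : ℝ), 2 ≤ n → 1 ≤ k → 0 < v₁ → v₁ < v₂ →
    (∀ v, v₁ < v → v < v₂ → {X : ℝ | ∏ i, (X - (D.a i : ℝ)) = - v}.ncard = r₁) →
    ∀ m : ℕ, 2 ≤ m → ∃ C N : ℕ, ∀ q : ℕ, q.Prime → N < q →
      ∃ (K : Type) (_ : Field K) (_ : NumberField K), Module.finrank ℚ K = n ∧
        InfinitePlace.nrRealPlaces K = r₁ ∧ (q : ℤ) ∣ discr K ∧
        |discr K| ≤ (C : ℤ) * (q : ℤ) ^ (2 * m * (n - 1)) ∧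
        ∀ R, R + Units.rank K ≤ n + k - 1 →
          ∃ f : Multiplicative (Fin R → ZMod m) →* ClassGroup (𝓞 K), Function.Injective f

end Pool.Agent.NH14.CN
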