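import Pool.Agent.NH14.CN.Stm

/-!
# Project CN, second part: fields ramified at two given primes; statements

With two ramified primes `q`, `r` the exponent `1 / (2 m (n - 1))` of the count is doubled.
-/

set_option autoImplicit false

namespace Pool.Agent.NH14.CN

open Polynomial NumberField
open Pool.Agent.W289.CG

/-- `p` divides `t ^ m - s ^ m` exactly once and does not divide `s` -/
def Exact (p m : ℕ) (s t : ℤ) : Prop :=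
  (p : ℤ) ∣ t ^ m - s ^ m ∧ ¬ (p : ℤ) ^ 2 ∣ t ^ m - s ^ m ∧ ¬ (p : ℤ) ∣ s

/-- CN-ST2: choice of `s` and `t` of size `O(q)` for two primes `q` and `r`, `C r < q` -/
def S_ST2 : Prop :=
  ∀ (M s₀ t₀ : ℤ) (x y : ℝ) (m : ℕ), 2 ≤ m → 0 < M → IsCoprime s₀ M → 1 ≤ x → x < y → ∃ C : ℕ,
    ∀ q r : ℕ, q.Prime → r.Prime → C < r → C * r < q →
      (∃ ζ : ℤ, (r : ℤ) ∣ ζ ^ m - 1 ∧ ¬ (r : ℤ) ∣ ζ - 1) →
      ∃ s t : ℤ, M ∣ s - s₀ ∧ M ∣ t - t₀ ∧ 0 < s ∧ IsCoprime s t ∧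
        x * s < t ∧ (t : ℝ) < y * s ∧ (t : ℝ) ≤ C * q ∧ Exact q m s t ∧ Exact r m s t

/-- CN-ZETA: roots of unity modulo `r` -/
def S_ZETA : Prop :=
  ∀ (m ℓ r : ℕ), ℓ.Prime → ℓ ∣ m → r.Prime → ℓ < r → r % ℓ = 1 →
    ∃ ζ : ℤ, (r : ℤ) ∣ ζ ^ m - 1 ∧ ¬ (r : ℤ) ∣ ζ - 1

/-- CN-PAP: many primes congruent to one modulo `ℓ` -/
def S_PAP : Prop :=
  ∀ (ℓ : ℕ), 1 ≤ ℓ → ∀ ε : ℝ, 0 < ε → ∃ Y₀ : ℕ, ∀ Y : ℕ, Y₀ ≤ Y →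
    (Y : ℝ) ^ (1 - ε) ≤ ((((Finset.range (Y + 1)).filter (fun r => r.Prime ∧ r % ℓ = 1 % ℓ)).card : ℕ) : ℝ)

/-- CN-CNT2: counting the discriminants divisible by two primes -/
def S_CNT2 : Prop :=
  ∀ (S : Set ℤ) (A C N ℓ : ℕ), 1 ≤ A → 1 ≤ ℓ →
    (∀ q r : ℕ, q.Prime → r.Prime → N < r → N * r < q → r % ℓ = 1 % ℓ →
      ∃ d ∈ S, d ≠ 0 ∧ (q : ℤ) ∣ d ∧ (r : ℤ) ∣ d ∧ |d| ≤ (C : ℤ) * (q : ℤ) ^ A) →
    ∀ δ : ℝ, δ < 2 / (A : ℝ) → ∃ X₀ : ℝ, ∀ X : ℝ, X₀ ≤ X →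
      X ^ δ ≤ (({d : ℤ | d ∈ S ∧ ((|d| : ℤ) : ℝ) ≤ X}.ncard : ℕ) : ℝ)

/-- the fields for given data: one for every pair of large primes `q`, `r` with `N r < q` and `r ≡ 1 mod ℓ`,
ramified at `q` and at `r`, with a small discriminant -/
def S_Q2 : Prop :=
  ∀ (n k : ℕ) (D : Dat n k) (r₁ : ℕ) (v₁ v₂ : ℝ), 2 ≤ n → 1 ≤ k → 0 < v₁ → v₁ < v₂ →
    (∀ v, v₁ < v → v < v₂ → {X : ℝ | ∏ i, (X - (D.a i : ℝ)) = - v}.ncard = r₁) →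
    ∀ m : ℕ, 2 ≤ m → ∃ C N : ℕ, ∀ q r : ℕ, q.Prime → r.Prime → N < r → N * r < q →
      r % m.minFac = 1 % m.minFac →
      ∃ (K : Type) (_ : Field K) (_ : NumberField K), Module.finrank ℚ K = n ∧
        InfinitePlace.nrRealPlaces K = r₁ ∧ (q : ℤ) ∣ discr K ∧ (r : ℤ) ∣ discr K ∧
        |discr K| ≤ (C : ℤ) * (q : ℤ) ^ (2 * m * (n - 1)) ∧
        ∀ R, R + Units.rank K ≤ n + k - 1 →
          ∃ f : Multiplicative (Fin R → ZMod m) →* ClassGroup (𝓞 K), Function.Injective f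

end Pool.Agent.NH14.CN
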