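import Pool.Agent.NH14.CN.Stm

/-!
# Project CN: the discriminant of the basis `1, L θ, L θ ^ 2, ...`
-/

set_option autoImplicit false

namespace Pool.Agent.NH14.CN

open Polynomial NumberField

namespace Vdm

open Finset

theorem prod_L (n : ℕ) (hn : 1 ≤ n) (L : ℚ) :
    ∏ i : Fin n, (if (i : ℕ) = 0 then 1 else L) = L ^ (n - 1) := by
  obtain ⟨m, rfl⟩ : ∃ m, n = m + 1 := ⟨n - 1, by omega⟩
  rw [Fin.prod_univ_succ]
  simp

theorem count (n : ℕ) : 2 * ∑ i : Fin n, (Ioi i).card = n * (n - 1) := by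
  have h1 : ∑ i : Fin n, (Ioi i).card = ∑ i ∈ range n, (n - 1 - i) := by
    rw [← Fin.sum_univ_eq_sum_range (fun i => n - 1 - i) n]
    exact Finset.sum_congr rfl fun i _ => by simp
  rw [h1, Finset.sum_range_reflect (fun i => i) n, mul_comm, Finset.sum_range_id_mul_two]

theorem bound (n : ℕ) (x : Fin n → ℂ) (B : ℝ) (h : ∀ i, ‖x i‖ ≤ B) :
    ‖∏ i : Fin n, ∏ j ∈ Ioi i, (x j - x i) ^ 2‖ ≤ (2 * B) ^ (n * (n - 1)) := by
  rw [norm_prod]
  calc ∏ i : Fin n, ‖∏ j ∈ Ioi i, (x j - x i) ^ 2‖ ≤ ∏ i : Fin n, ((2 * B) ^ 2) ^ (Ioi i).card := by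
        apply Finset.prod_le_prod (fun _ _ => norm_nonneg _)
        intro i _
        rw [norm_prod, ← Finset.prod_const]
        apply Finset.prod_le_prod (fun _ _ => norm_nonneg _)
        intro j _
        rw [norm_pow]
        apply pow_le_pow_left₀ (norm_nonneg _)
        calc ‖x j - x i‖ ≤ ‖x j‖ + ‖x i‖ := norm_sub_le _ _
          _ ≤ B + B := add_le_add (h j) (h i)
          _ = 2 * B := by ring
    _ = (2 * B) ^ (n * (n - 1)) := by
        rw [Finset.prod_pow_eq_pow_sum, ← pow_mul, count]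

end Vdm

open Vdm in
theorem t_VDM : S_VDM := by
  intro K _ _ n L θ B hn h2 hL hθ hB
  have hint : IsIntegral ℚ θ := Algebra.IsIntegral.isIntegral θ
  obtain ⟨pb, hpb⟩ : ∃ pb : PowerBasis ℚ K, pb.gen = θ := by
    refine ⟨(IntermediateField.adjoin.powerBasis hint).map
      ((IntermediateField.equivOfEq hθ).trans IntermediateField.topEquiv), ?_⟩
    simp
  have hd : n = pb.dim := by rw [← hn, pb.finrank]
  subst hd
  have hL0 : (L : ℚ) ≠ 0 := by exact_mod_cast hL.ne'
  set d : Fin pb.dim → ℚ := fun i => if (i : ℕ) = 0 then 1 else (L : ℚ) with hd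
  have hd0 : ∀ i, d i ≠ 0 := by
    intro i
    simp only [hd]
    split_ifs
    · exact one_ne_zero
    · exact hL0
  let b := pb.basis.unitsSMul (fun i => Units.mk0 (d i) (hd0 i))
  have hb : ∀ i, b i = d i • pb.basis i := fun i => by
    simp only [b, Module.Basis.unitsSMul_apply, Units.smul_def, Units.val_mk0]
  have hdisc : Algebra.discr ℚ b = ((L : ℚ) ^ (pb.dim - 1)) ^ 2 * Algebra.discr ℚ pb.basis := by
    rw [← prod_L pb.dim (by omega) (L : ℚ), ← Matrix.det_diagonal,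
      ← Algebra.discr_of_matrix_mulVec]
    congr 1
    funext i
    rw [hb, Matrix.diagonal_map (map_zero _), Matrix.mulVec_diagonal, Algebra.smul_def]
  refine ⟨b, ?_, ?_⟩
  · intro i
    rw [hb, pb.coe_basis, hpb]
    simp only [hd]
    split_ifs with h0
    · rw [h0]; simp
    · rw [Algebra.smul_def]; simp
  · have e : Fin pb.dim ≃ (K →ₐ[ℚ] ℂ) := by
      refine Fintype.equivOfCardEq ?_
      rw [Fintype.card_fin, AlgHom.card, pb.finrank]
    have h3 := Algebra.discr_powerBasis_eq_prod ℚ ℂ pb e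
    have h4 : |((Algebra.discr ℚ pb.basis : ℚ) : ℝ)| ≤ (2 * B) ^ (pb.dim * (pb.dim - 1)) := by
      have h5 : ‖(algebraMap ℚ ℂ (Algebra.discr ℚ pb.basis))‖ = |((Algebra.discr ℚ pb.basis : ℚ) : ℝ)| := by
        simp
      rw [← h5, h3]
      refine bound _ (fun i => e i pb.gen) B ?_
      intro i
      rw [hpb]
      exact hB (e i : K →+* ℂ)
    rw [hdisc, abs_mul, abs_of_nonneg (by positivity : (0 : ℚ) ≤ ((L : ℚ) ^ (pb.dim - 1)) ^ 2)]
    push_cast
    rw [← pow_mul, mul_comm (pb.dim - 1) 2]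
    exact mul_le_mul_of_nonneg_left h4 (by positivity)

end Pool.Agent.NH14.CN
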