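import Pool.Agent.NH14.CN.Stm2

/-!
# CN-ZETA: roots of unity modulo `r`
-/

set_option autoImplicit false

namespace Pool.Agent.NH14.CN

theorem t_ZETA : S_ZETA := by
  intro m ℓ r hℓ hm hr hlr hmod
  have : Fact ℓ.Prime := ⟨hℓ⟩
  have : Fact r.Prime := ⟨hr⟩
  have hdvd : ℓ ∣ Fintype.card (ZMod r)ˣ := by
    rw [ZMod.card_units r]
    exact (Nat.modEq_iff_dvd' hr.one_le).1 (by
      rw [Nat.ModEq, hmod, Nat.mod_eq_of_lt hℓ.one_lt])
  obtain ⟨u, hu⟩ := exists_prime_orderOf_dvd_card ℓ hdvd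
  have hu1 : u ≠ 1 := by
    intro h
    rw [h, orderOf_one] at hu
    exact hℓ.one_lt.ne hu
  have hum : u ^ m = 1 := orderOf_dvd_iff_pow_eq_one.1 (by rw [hu]; exact hm)
  obtain ⟨ζ, hζ⟩ := ZMod.intCast_surjective (u : ZMod r)
  refine ⟨ζ, ?_, ?_⟩
  · rw [← ZMod.intCast_zmod_eq_zero_iff_dvd]
    push_cast
    rw [hζ, ← Units.val_pow_eq_pow_val, hum, Units.val_one, sub_self]
  · rw [← ZMod.intCast_zmod_eq_zero_iff_dvd]
    push_cast
    rw [hζ, sub_eq_zero]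
    intro h
    exact hu1 (Units.ext h)

end Pool.Agent.NH14.CN
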